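import Pool.Agent.PRAR.PRBasic

/-! # Subspaces and probabilities -/

set_option autoImplicit false
set_option linter.unusedSectionVars false

open scoped Classical

noncomputable section

namespace PRAR

section subspaces

variable {F : Type} [Field F] [Fintype F]
variable {Y V : Type} [AddCommGroup Y] [Module F Y] [Fintype Y] [AddCommGroup V] [Module F V]
  [Fintype V]

/-- Codimension of a subspace. -/
def codim (K : Submodule F Y) : ℕ := Module.finrank F Y - Module.finrank F K

theorem prob_mem (K : Submodule F Y) :
    prob (fun u : Y => u ∈ K) = (qq F)⁻¹ ^ codim K := by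
  have h1 : (Finset.univ.filter fun u : Y => u ∈ K).card = Fintype.card K :=
    (Fintype.card_subtype _).symm
  have h2 : Fintype.card K = Fintype.card F ^ Module.finrank F K := Module.card_eq_pow_finrank
  have h3 : Fintype.card Y = Fintype.card F ^ Module.finrank F Y := Module.card_eq_pow_finrank
  have hle : Module.finrank F K ≤ Module.finrank F Y := Submodule.finrank_le K
  have h4 : Module.finrank F Y = Module.finrank F K + codim K := by
    unfold codim
    omega
  have hq : (Fintype.card F : ℝ) ≠ 0 := (qq_pos F).ne'
  unfold prob
  rw [h1, h2, h3, h4]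
  push_cast
  rw [pow_add, inv_pow]
  field_simp

theorem codim_inf_le (K K' : Submodule F Y) : codim (K ⊓ K') ≤ codim K + codim K' := by
  have h1 := Submodule.finrank_sup_add_finrank_inf_eq K K'
  have h2 : Module.finrank F (K ⊔ K' : Submodule F Y) ≤ Module.finrank F Y :=
    Submodule.finrank_le _
  unfold codim
  omega

theorem codim_mono {K K' : Submodule F Y} (h : K ≤ K') : codim K' ≤ codim K := by
  have h1 := Submodule.finrank_mono h
  unfold codim
  omega

theorem codim_ker (L : Y →ₗ[F] V) :
    codim (LinearMap.ker L) = Module.finrank F (LinearMap.range L) := by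
  have h1 := LinearMap.finrank_range_add_finrank_ker L
  unfold codim
  omega

/-- Codimension of a finite intersection. -/
theorem codim_iInf_le {σ : Type*} (s : Finset σ) (K : σ → Submodule F Y) (c : σ → ℕ)
    (h : ∀ k ∈ s, codim (K k) ≤ c k) : codim (⨅ k ∈ s, K k) ≤ ∑ k ∈ s, c k := by
  induction s using Finset.induction_on with
  | empty =>
    have h1 : (⨅ k ∈ (∅ : Finset σ), K k) = ⊤ := by simp
    rw [h1]
    unfold codim
    rw [finrank_top]
    omega
  | insert a s ha ih =>
    rw [Finset.iInf_insert, Finset.sum_insert ha]
    refine (codim_inf_le _ _).trans (Nat.add_le_add ?_ ?_)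
    · exact h a (Finset.mem_insert_self a s)
    · exact ih fun k hk => h k (Finset.mem_insert_of_mem hk)

end subspaces


end PRAR
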