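import Pool.Agent.PRAR.PRBasic

/-! # Probabilities on product spaces -/

set_option autoImplicit false
set_option linter.unusedSectionVars false

open scoped Classical

noncomputable section

namespace PRAR

section product

variable {ι X : Type} [Fintype ι] [Fintype X]

/-- The involution exchanging coordinate `i` with the external variable. -/
def bab_swap (i : ι) : ((ι → X) × X) ≃ ((ι → X) × X) where
  toFun p := (Function.update p.1 i p.2, p.1 i)
  invFun p := (Function.update p.1 i p.2, p.1 i)
  left_inv := by
    intro p
    simp
  right_inv := by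
    intro p
    simp

theorem bab_avg_fst {α β : Type} [Fintype α] [Fintype β] [Nonempty β] (f : α → ℝ) :
    avg (fun p : α × β => f p.1) = avg f := by
  rw [avg_prod]
  simp only [avg_const]

/-- Resampling one coordinate. -/
theorem avg_update (i : ι) (f : (ι → X) → ℝ) :
    avg (fun y : ι → X => avg (fun u : X => f (Function.update y i u))) = avg f := by
  rcases isEmpty_or_nonempty X with hX | hX
  · have : IsEmpty (ι → X) := ⟨fun y => hX.false (y i)⟩
    unfold avg
    simp
  · have h1 : avg (fun y : ι → X => avg (fun u : X => f (Function.update y i u)))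
        = avg (fun p : (ι → X) × X => f (Function.update p.1 i p.2)) := by
      rw [avg_prod]
    have h2 := avg_equiv (bab_swap (X := X) i) (fun p : (ι → X) × X => f p.1)
    rw [h1]
    have h3 : avg (fun p : (ι → X) × X => f (Function.update p.1 i p.2))
        = avg (fun p : (ι → X) × X => f p.1) := h2
    rw [h3, bab_avg_fst]

theorem prob_update (i : ι) (p : (ι → X) → Prop) :
    avg (fun y : ι → X => prob (fun u : X => p (Function.update y i u))) = prob p := by
  simp_rw [prob_eq_avg]
  exact avg_update i (fun y => if p y then (1 : ℝ) else 0)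

/-- Splitting functions along an injection. -/
def bab_split {σ τ : Type} (e : τ → σ) (he : Function.Injective e) :
    (σ → X) ≃ (τ → X) × ({s : σ // s ∉ Set.range e} → X) where
  toFun y := (fun t => y (e t), fun s => y s.1)
  invFun p := fun s => if h : s ∈ Set.range e then p.1 h.choose else p.2 ⟨s, h⟩
  left_inv := by
    intro y
    funext s
    by_cases h : s ∈ Set.range e
    · simp only [h, dite_true]
      rw [h.choose_spec]
    · simp only [h, dite_false]
  right_inv := by
    rintro ⟨a, b⟩
    ext t
    · have h : e t ∈ Set.range e := ⟨t, rfl⟩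
      simp only [h, dite_true]
      congr 1
      exact he h.choose_spec
    · have h := t.2
      simp only [h, dite_false]

/-- A predicate which only looks at the coordinates `e t`, `t ∈ τ`. -/
theorem prob_comp_inj {σ τ : Type} [Fintype σ] [Fintype τ] [Nonempty X] (e : τ → σ)
    (he : Function.Injective e) (p : (τ → X) → Prop) :
    prob (fun y : σ → X => p (fun t => y (e t))) = prob p := by
  rw [prob_eq_avg, prob_eq_avg]
  have h2 := avg_equiv (bab_split (X := X) e he)
    (fun q : (τ → X) × ({s : σ // s ∉ Set.range e} → X) => if p q.1 then (1 : ℝ) else 0)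
  have h3 : avg (fun y : σ → X => if p (fun t => y (e t)) then (1 : ℝ) else 0)
      = avg (fun q : (τ → X) × ({s : σ // s ∉ Set.range e} → X) =>
        if p q.1 then (1 : ℝ) else 0) := h2
  rw [h3]
  exact bab_avg_fst (β := {s : σ // s ∉ Set.range e} → X) (fun q => if p q then (1 : ℝ) else 0)

/-- Jensen for powers. -/
theorem avg_pow_le {α : Type*} [Fintype α] [Nonempty α] (f : α → ℝ) (hf : ∀ x, 0 ≤ f x) (n : ℕ) :
    avg f ^ n ≤ avg (fun x => f x ^ n) := by
  have hc : (0 : ℝ) < (Fintype.card α : ℝ) := by
    exact_mod_cast Fintype.card_pos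
  have h := Real.pow_arith_mean_le_arith_mean_pow Finset.univ
    (fun _ : α => ((Fintype.card α : ℝ))⁻¹) f (fun _ _ => by positivity)
    (by
      rw [Finset.sum_const, Finset.card_univ, nsmul_eq_mul]
      field_simp) (fun x _ => hf x) n
  unfold avg
  rw [← Finset.mul_sum, ← Finset.mul_sum] at h
  rw [div_eq_inv_mul, div_eq_inv_mul]
  exact h

/-- Cauchy–Schwarz. -/
theorem avg_mul_sq_le {α : Type*} [Fintype α] (f g : α → ℝ) :
    avg (fun x => f x * g x) ^ 2 ≤ avg (fun x => f x ^ 2) * avg (fun x => g x ^ 2) := by
  unfold avg
  rw [div_pow, div_mul_div_comm, ← sq]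
  exact div_le_div_of_nonneg_right (Finset.sum_mul_sq_le_sq_mul_sq _ _ _) (by positivity)

end product

end PRAR
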