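import Pool.Agent.PRAR.BaB

/-! # Independent copies of an arbitrary set (1.5) -/

set_option autoImplicit false
set_option linter.unusedSectionVars false

open scoped Classical

noncomputable section

namespace PRAR

section product

variable {ι X : Type} [Fintype ι] [Fintype X]

/-- Independent copies of one variable. -/
theorem bac_pow (n : ℕ) (S : X → Prop) :
    prob (fun w : Fin n → X => ∀ c, S (w c)) = prob S ^ n := by
  unfold prob
  have h : ∀ inst : DecidablePred fun w : Fin n → X => ∀ c, S (w c),
      @Finset.filter _ (fun w : Fin n → X => ∀ c, S (w c)) inst Finset.univ =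
      Fintype.piFinset (fun _ : Fin n => Finset.univ.filter S) := by
    intro inst
    ext w
    simp [Fintype.mem_piFinset]
  rw [h, Fintype.card_piFinset, Finset.prod_const, Finset.card_univ, Fintype.card_fin,
    Fintype.card_fun, Fintype.card_fin]
  push_cast
  rw [div_pow]

theorem bac_transfer {α β : Type} (i1 : Fintype α) (i2 : Fintype β) (e : α ≃ β) (p : α → Prop)
    (r : β → Prop) (h : ∀ x, p x ↔ r (e x)) : @prob α i1 p = @prob β i2 r := by
  rw [← prob_equiv e r]
  exact prob_congr h

theorem bac_same {α : Type} (i1 i2 : Fintype α) (p : α → Prop) :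
    @prob α i1 p = @prob α i2 p := by
  rw [Subsingleton.elim i1 i2]

/-- Reading only one copy. -/
theorem bac_one [Nonempty X] (n : ℕ) [NeZero n] (S : X → Prop) :
    prob (fun w : Fin n → X => S (w 0)) = prob S := by
  have h1 := prob_comp_inj (X := X) (σ := Fin n) (τ := Unit) (fun _ => 0)
    (fun a b _ => Subsingleton.elim a b) (fun t => S (t ()))
  refine Eq.trans ?_ (h1.trans ?_)
  · exact bac_same _ _ _
  · exact bac_transfer _ _ (Equiv.funUnique Unit X) _ _ fun t => Iff.rfl

/-- The event for the slots in `J`. -/
def bac_ev (G : (ι → X) → Prop) (J : Finset ι) (n : ℕ) [NeZero n] (yb : ι → Fin n → X) : Prop :=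
  ∀ β : ι → Fin n, (∀ i, i ∉ J → β i = 0) → G (fun i => yb i (β i))

theorem bac_base [Nonempty X] (G : (ι → X) → Prop) (n : ℕ) [NeZero n] :
    prob (fun yb : ι → Fin n → X => G (fun i => yb i 0)) = prob G := by
  have h1 := prob_comp_inj (X := X) (σ := ι × Fin n) (τ := ι) (fun i => (i, 0))
    (fun a b h => (Prod.mk.inj h).1) G
  refine Eq.trans ?_ h1
  exact bac_transfer _ _ (Equiv.curry ι (Fin n) X).symm _ _ fun t => Iff.rfl

theorem bac_step_iff (G : (ι → X) → Prop) (J : Finset ι) (n : ℕ) [NeZero n] {i : ι} (hi : i ∉ J)
    (yb : ι → Fin n → X) (w : Fin n → X) :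
    bac_ev G (insert i J) n (Function.update yb i w) ↔
      ∀ c, bac_ev G J n (Function.update yb i (fun _ => w c)) := by
  constructor
  · intro h c β hβ
    have h1 := h (Function.update β i c) (by
      intro k hk
      have hki : k ≠ i := fun e => hk (e ▸ Finset.mem_insert_self i J)
      rw [Function.update_of_ne hki]
      exact hβ k fun hkJ => hk (Finset.mem_insert_of_mem hkJ))
    convert h1 using 1
    funext k
    by_cases hki : k = i
    · subst hki
      simp
    · simp [Function.update_of_ne hki]
  · intro h β hβ
    have h1 := h (β i) (Function.update β i 0) (by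
      intro k hk
      by_cases hki : k = i
      · subst hki
        simp
      · rw [Function.update_of_ne hki]
        exact hβ k fun hkJ => (Finset.mem_insert.1 hkJ).elim hki hk)
    convert h1 using 1
    funext k
    by_cases hki : k = i
    · subst hki
      simp
    · simp [Function.update_of_ne hki]

theorem bac_zero_iff (G : (ι → X) → Prop) (J : Finset ι) (n : ℕ) [NeZero n] {i : ι} (hi : i ∉ J)
    (yb : ι → Fin n → X) (w : Fin n → X) :
    bac_ev G J n (Function.update yb i w) ↔
      bac_ev G J n (Function.update yb i (fun _ => w 0)) := by
  have key : ∀ β : ι → Fin n, (∀ i, i ∉ J → β i = 0) →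
      (fun k => (Function.update yb i w) k (β k)) =
        (fun k => (Function.update yb i (fun _ : Fin n => w 0)) k (β k)) := by
    intro β hβ
    funext k
    by_cases hki : k = i
    · subst hki
      simp [hβ k hi]
    · simp [Function.update_of_ne hki]
  constructor
  · intro h β hβ
    rw [← key β hβ]
    exact h β hβ
  · intro h β hβ
    rw [key β hβ]
    exact h β hβ

theorem bac_main [Nonempty X] (G : (ι → X) → Prop) (n : ℕ) [NeZero n] (J : Finset ι) :
    prob G ^ (n ^ J.card) ≤ prob (bac_ev G J n) := by
  induction J using Finset.induction_on with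
  | empty =>
    rw [Finset.card_empty, pow_zero, pow_one, ← bac_base G n]
    refine prob_mono fun yb h β hβ => ?_
    have : β = fun _ => 0 := funext fun i => hβ i (Finset.notMem_empty i)
    rw [this]
    exact h
  | insert i J hi ih =>
    have h1 : prob (bac_ev G (insert i J) n) =
        avg (fun yb : ι → Fin n → X =>
          (prob (fun x : X => bac_ev G J n (Function.update yb i (fun _ => x)))) ^ n) := by
      rw [← prob_update i (bac_ev G (insert i J) n)]
      congr 1
      funext yb
      rw [← bac_pow]
      exact prob_congr fun w => bac_step_iff G J n hi yb w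
    have h2 : prob (bac_ev G J n) =
        avg (fun yb : ι → Fin n → X =>
          prob (fun x : X => bac_ev G J n (Function.update yb i (fun _ => x)))) := by
      rw [← prob_update i (bac_ev G J n)]
      congr 1
      funext yb
      rw [← bac_one n (fun x : X => bac_ev G J n (Function.update yb i (fun _ => x)))]
      exact prob_congr fun w => bac_zero_iff G J n hi yb w
    rw [Finset.card_insert_of_notMem hi, pow_succ, pow_mul, h1]
    calc (prob G ^ n ^ J.card) ^ n ≤ (prob (bac_ev G J n)) ^ n := by
          gcongr
          exact pow_nonneg (prob_nonneg _) _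
      _ ≤ _ := by
          rw [h2]
          exact avg_pow_le _ (fun yb => prob_nonneg _) n

/-- Independent copies in the slots of `J`: for an arbitrary set `G`. -/
theorem sid (G : (ι → X) → Prop) (J : Finset ι) (n : ℕ) [NeZero n] :
    prob G ^ (n ^ J.card) ≤ prob (fun yb : ι → Fin n → X =>
      ∀ β : ι → Fin n, (∀ i, i ∉ J → β i = 0) → G (fun i => yb i (β i))) := by
  rcases isEmpty_or_nonempty X with hX | hX
  · rcases isEmpty_or_nonempty ι with hι | hι
    · have hJ : J = ∅ := by
        ext i
        exact hι.elim i
      have hy : ∀ y : ι → X, y = fun i => hι.elim i := fun y => funext fun i => hι.elim i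
      have hz : ∀ y : ι → Fin n → X, y = fun i => hι.elim i := fun y => funext fun i => hι.elim i
      have hne1 : Nonempty (ι → X) := ⟨fun i => hι.elim i⟩
      have hne2 : Nonempty (ι → Fin n → X) := ⟨fun i => hι.elim i⟩
      rw [hJ, Finset.card_empty, pow_zero, pow_one]
      by_cases hG : G (fun i => hι.elim i)
      · refine (prob_le_one G).trans (le_of_eq ?_)
        symm
        apply prob_le_of_equiv_one
        intro yb β _
        rw [hy (fun i => yb i (β i))]
        exact hG
      · have h0 : prob G = 0 := by
          unfold prob
          have : Finset.univ.filter G = ∅ := by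
            ext y
            simp only [Finset.mem_filter, Finset.mem_univ, true_and, Finset.notMem_empty, iff_false]
            rw [hy y]
            exact hG
          rw [this]
          simp
        rw [h0]
        exact prob_nonneg _
    · obtain ⟨i⟩ := hι
      have hem : IsEmpty (ι → X) := ⟨fun y => hX.false (y i)⟩
      have h0 : prob G = 0 := by
        unfold prob
        simp
      rw [h0, zero_pow (pow_ne_zero _ (NeZero.ne n))]
      exact prob_nonneg _
  · exact bac_main G n J

end product


end PRAR
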