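import Pool.Agent.PRAR.BaA
import Pool.Agent.PRAR.BaB

/-! # Slot-linear sets and positive correlation (1.2) -/

set_option autoImplicit false
set_option linter.unusedSectionVars false

open scoped Classical

noncomputable section

namespace PRAR

section SL

variable {σ : Type} [Fintype σ] (F : Type) [Field F] [Fintype F]
variable {Y : Type} [AddCommGroup Y] [Module F Y] [Fintype Y]

/-- Slot-linear sets: every one-slot section is empty or a subspace. -/
def SL (W : (σ → Y) → Prop) : Prop :=
  ∀ (y : σ → Y) (i : σ), (∀ u, ¬ W (Function.update y i u)) ∨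
    ∃ K : Submodule F Y, ∀ u, W (Function.update y i u) ↔ u ∈ K

variable {F}

/-- Indicator. -/
def bad_ind (p : Prop) : ℝ := if p then 1 else 0

theorem bad_ind_nonneg (p : Prop) : 0 ≤ bad_ind p := by
  unfold bad_ind
  split_ifs <;> norm_num

theorem bad_avg_ind {α : Type*} [Fintype α] (p : α → Prop) :
    avg (fun x => bad_ind (p x)) = prob p := by
  rw [prob_eq_avg]
  rfl

theorem bad_ind_and (p r : Prop) : bad_ind (p ∧ r) = bad_ind p * bad_ind r := by
  unfold bad_ind
  by_cases h1 : p <;> by_cases h2 : r <;> simp [h1, h2]

/-- Two subspaces are positively correlated. -/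
theorem bad_sub (K K' : Submodule F Y) :
    prob (fun u : Y => u ∈ K) * prob (fun u : Y => u ∈ K') ≤
      prob (fun u : Y => u ∈ K ∧ u ∈ K') := by
  have h0 : prob (fun u : Y => u ∈ K ∧ u ∈ K') = prob (fun u : Y => u ∈ K ⊓ K') :=
    prob_congr fun u => Submodule.mem_inf.symm
  rw [h0, prob_mem, prob_mem, prob_mem, ← pow_add]
  apply pow_le_pow_of_le_one
  · exact inv_nonneg.2 (qq_pos F).le
  · exact inv_le_one_of_one_le₀ (one_lt_qq F).le
  · exact codim_inf_le K K'

/-- The interpolation between independent and equal variables. -/
def bad_Phi (W W' : (σ → Y) → Prop) (s : Finset σ) : ℝ :=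
  avg (fun x : σ → Y => avg (fun y : σ → Y => bad_ind (W x ∧ W' (s.piecewise x y))))

theorem bad_Phi_resample (W W' : (σ → Y) → Prop) (s : Finset σ) (i : σ) :
    bad_Phi W W' s = avg (fun x : σ → Y => avg (fun y : σ → Y => avg (fun u : Y =>
      avg (fun v : Y => bad_ind (W (Function.update x i u) ∧
        W' (s.piecewise (Function.update x i u) (Function.update y i v))))))) := by
  unfold bad_Phi
  rw [← avg_update i (fun x : σ → Y => avg (fun y : σ → Y =>
    bad_ind (W x ∧ W' (s.piecewise x y))))]
  congr 1
  funext x
  rw [avg_comm (fun (y : σ → Y) (u : Y) => avg (fun v : Y =>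
    bad_ind (W (Function.update x i u) ∧
        W' (s.piecewise (Function.update x i u) (Function.update y i v)))))]
  congr 1
  funext u
  exact (avg_update i (fun y : σ → Y => bad_ind (W (Function.update x i u) ∧
    W' (s.piecewise (Function.update x i u) y)))).symm

theorem bad_Phi_step {W W' : (σ → Y) → Prop} (h : SL F W) (h' : SL F W') (s : Finset σ) (i : σ)
    (hi : i ∉ s) : bad_Phi W W' s ≤ bad_Phi W W' (insert i s) := by
  rw [bad_Phi_resample W W' s i, bad_Phi_resample W W' (insert i s) i]
  apply avg_mono
  intro x
  apply avg_mono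
  intro y
  have e1 : ∀ u v : Y, s.piecewise (Function.update x i u) (Function.update y i v) =
      Function.update (s.piecewise x y) i v := by
    intro u v
    funext j
    by_cases hj : j = i
    · subst hj
      simp [hi]
    · by_cases hjs : j ∈ s <;> simp [hj, hjs]
  have e2 : ∀ u v : Y, (insert i s).piecewise (Function.update x i u) (Function.update y i v) =
      Function.update (s.piecewise x y) i u := by
    intro u v
    funext j
    by_cases hj : j = i
    · subst hj
      simp
    · by_cases hjs : j ∈ s <;> simp [hj, hjs]
  simp only [e1, e2]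
  have e3 : ∀ u : Y, avg (fun _ : Y => bad_ind (W (Function.update x i u) ∧
      W' (Function.update (s.piecewise x y) i u))) = bad_ind (W (Function.update x i u) ∧
      W' (Function.update (s.piecewise x y) i u)) := fun u => avg_const _
  simp only [e3]
  rcases h x i with hx | ⟨K, hK⟩
  · have : ∀ u v : Y, bad_ind (W (Function.update x i u) ∧
        W' (Function.update (s.piecewise x y) i v)) = 0 := by
      intro u v
      unfold bad_ind
      simp [hx u]
    simp only [this, avg_const]
    exact le_refl _
  rcases h' (s.piecewise x y) i with hy | ⟨K', hK'⟩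
  · have : ∀ u v : Y, bad_ind (W (Function.update x i u) ∧
        W' (Function.update (s.piecewise x y) i v)) = 0 := by
      intro u v
      unfold bad_ind
      simp [hy v]
    simp only [this, avg_const]
    exact le_refl _
  simp only [hK, hK']
  rw [bad_avg_ind]
  have e4 : avg (fun u : Y => avg (fun v : Y => bad_ind (u ∈ K ∧ v ∈ K'))) =
      prob (fun u : Y => u ∈ K) * prob (fun u : Y => u ∈ K') := by
    simp only [bad_ind_and, avg_const_mul, bad_avg_ind]
    have : (fun u : Y => bad_ind (u ∈ K) * prob (fun v : Y => v ∈ K')) =
        fun u : Y => prob (fun v : Y => v ∈ K') * bad_ind (u ∈ K) := by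
      funext u
      ring
    rw [this, avg_const_mul, bad_avg_ind]
    ring
  rw [e4]
  exact bad_sub K K'

/-- Positive correlation of slot-linear sets. -/
theorem corr {W W' : (σ → Y) → Prop} (h : SL F W) (h' : SL F W') :
    prob W * prob W' ≤ prob (fun y => W y ∧ W' y) := by
  have h0 : bad_Phi W W' ∅ = prob W * prob W' := by
    unfold bad_Phi
    simp only [Finset.piecewise_empty, bad_ind_and, avg_const_mul, bad_avg_ind]
    have : (fun x : σ → Y => bad_ind (W x) * prob W') = fun x => prob W' * bad_ind (W x) := by
      funext u
      ring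
    rw [this, avg_const_mul, bad_avg_ind]
    ring
  have h1 : bad_Phi W W' Finset.univ = prob (fun y => W y ∧ W' y) := by
    unfold bad_Phi
    simp only [Finset.piecewise_univ, avg_const, bad_avg_ind]
  have key : ∀ s : Finset σ, bad_Phi W W' ∅ ≤ bad_Phi W W' s := by
    intro s
    induction s using Finset.induction_on with
    | empty => exact le_refl _
    | insert a s ha ih => exact ih.trans (bad_Phi_step h h' s a ha)
  rw [← h0, ← h1]
  exact key Finset.univ

theorem SL.forall {κ : Type*} {W : κ → (σ → Y) → Prop} (h : ∀ k, SL F (W k)) :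
    SL F (fun y => ∀ k, W k y) := by
  intro y i
  by_cases hex : ∃ k, ∀ u, ¬ W k (Function.update y i u)
  · obtain ⟨k, hk⟩ := hex
    exact Or.inl fun u hu => hk u (hu k)
  · right
    push Not at hex
    have h2 : ∀ k, ∃ K : Submodule F Y, ∀ u, W k (Function.update y i u) ↔ u ∈ K := by
      intro k
      rcases h k y i with h3 | h3
      · obtain ⟨u, hu⟩ := hex k
        exact absurd hu (h3 u)
      · exact h3
    choose K hK using h2
    refine ⟨⨅ k, K k, fun u => ?_⟩
    rw [Submodule.mem_iInf]
    exact forall_congr' fun k => hK k u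

theorem SL.and {W W' : (σ → Y) → Prop} (h : SL F W) (h' : SL F W') :
    SL F (fun y => W y ∧ W' y) := by
  have h2 := SL.forall (F := F) (κ := Bool) (W := fun b => if b = true then W else W') (by
    intro b
    cases b
    · simpa using h'
    · simpa using h)
  have h3 : (fun y : σ → Y => ∀ b : Bool, (if b = true then W else W') y) =
      fun y => W y ∧ W' y := by
    funext y
    apply propext
    constructor
    · intro hb
      exact ⟨by simpa using hb true, by simpa using hb false⟩
    · rintro ⟨ha, hb⟩ b
      cases b
      · simpa using hb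
      · simpa using ha
  rw [h3] at h2
  exact h2

/-- Product lower bound for a finite intersection of slot-linear sets. -/
theorem corr_prod {κ : Type*} (s : Finset κ) {W : κ → (σ → Y) → Prop} (h : ∀ k ∈ s, SL F (W k)) :
    ∏ k ∈ s, prob (W k) ≤ prob (fun y => ∀ k ∈ s, W k y) := by
  induction s using Finset.induction_on with
  | empty =>
    rw [Finset.prod_empty]
    have : prob (fun y : σ → Y => ∀ k ∈ (∅ : Finset κ), W k y) = 1 :=
      prob_le_of_equiv_one fun x => by simp
    rw [this]
  | insert a s ha ih =>
    rw [Finset.prod_insert ha]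
    have ih' := ih fun k hk => h k (Finset.mem_insert_of_mem hk)
    have hs : SL F (fun y : σ → Y => ∀ k ∈ s, W k y) := by
      have h2 := SL.forall (F := F) (κ := s) (W := fun k => W k.1)
        (fun k => h k.1 (Finset.mem_insert_of_mem k.2))
      have h3 : (fun y : σ → Y => ∀ k : s, W k.1 y) = fun y => ∀ k ∈ s, W k y := by
        funext y
        apply propext
        exact ⟨fun hb k hk => hb ⟨k, hk⟩, fun hb k => hb k.1 k.2⟩
      rw [h3] at h2
      exact h2
    calc prob (W a) * ∏ k ∈ s, prob (W k)
        ≤ prob (W a) * prob (fun y => ∀ k ∈ s, W k y) :=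
          mul_le_mul_of_nonneg_left ih' (prob_nonneg _)
      _ ≤ prob (fun y => W a y ∧ ∀ k ∈ s, W k y) :=
          corr (h a (Finset.mem_insert_self a s)) hs
      _ = prob (fun y => ∀ k ∈ insert a s, W k y) := by
          apply prob_congr
          intro y
          simp [Finset.mem_insert]

end SL


end PRAR
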