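import Pool.Agent.PRAR.BaD

/-! # Operations on maps of type I -/

set_option autoImplicit false
set_option linter.unusedSectionVars false

open scoped Classical

noncomputable section

namespace PRAR

section MLinFacts

variable {ι : Type} [Fintype ι] {F : Type} [Field F] [Fintype F]
variable {Y V : Type} [AddCommGroup Y] [Module F Y] [Fintype Y] [AddCommGroup V] [Module F V]
  [Fintype V]

theorem MLin.sl {I : Finset ι} {f : (ι → Y) → V} (hf : MLin F I f) :
    SL F (fun y => f y = 0) := by
  intro y i
  by_cases hi : i ∈ I
  · right
    refine ⟨LinearMap.ker (slotMap hf hi y), fun u => ?_⟩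
    rw [LinearMap.mem_ker]
    rfl
  · by_cases h0 : f y = 0
    · right
      refine ⟨⊤, fun u => ?_⟩
      show f (Function.update y i u) = 0 ↔ _
      rw [hf.off i hi]
      simp [h0]
    · left
      intro u hu
      have hu' : f (Function.update y i u) = 0 := hu
      rw [hf.off i hi] at hu'
      exact h0 hu'

/-- Reading the slots of `ι` from another index type `σ` along a map injective on `I`. -/
theorem MLin.reindex {σ : Type} [Fintype σ] {I : Finset ι} {f : (ι → Y) → V} (hf : MLin F I f)
    (v : ι → σ) (hv : Set.InjOn v I) : MLin F (I.image v) (fun y : σ → Y => f (fun i => y (v i))) := by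
  have key : ∀ i ∈ I, ∀ (y : σ → Y) (u : Y), f (fun k => Function.update y (v i) u (v k)) =
      f (Function.update (fun k => y (v k)) i u) := by
    intro i hi y u
    refine hf.congr fun k hk => ?_
    by_cases hki : k = i
    · subst hki; simp
    · have h1 : v k ≠ v i := fun h => hki (hv hk hi h)
      simp [h1, hki]
  refine ⟨?_, ?_, ?_⟩
  · intro s hs y u w
    obtain ⟨i, hi, rfl⟩ := Finset.mem_image.1 hs
    show f (fun k => Function.update y (v i) (u + w) (v k)) =
      f (fun k => Function.update y (v i) u (v k)) + f (fun k => Function.update y (v i) w (v k))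
    rw [key i hi, key i hi, key i hi, hf.add i hi]
  · intro s hs y c u
    obtain ⟨i, hi, rfl⟩ := Finset.mem_image.1 hs
    show f (fun k => Function.update y (v i) (c • u) (v k)) =
      c • f (fun k => Function.update y (v i) u (v k))
    rw [key i hi, key i hi, hf.smul i hi]
  · intro s hs y u
    show f (fun k => Function.update y s u (v k)) = f (fun k => y (v k))
    refine hf.congr fun k hk => ?_
    have h1 : v k ≠ s := fun h => hs (Finset.mem_image.2 ⟨k, hk, h⟩)
    simp [h1]

/-- Fixing the slots in `A` to `y`. -/
theorem MLin.fix {I : Finset ι} {f : (ι → Y) → V} (hf : MLin F I f) (A : Finset ι) (y : ι → Y) :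
    MLin F (I \ A) (fun z => f (A.piecewise y z)) := by
  have key : ∀ i, i ∉ A → ∀ (z : ι → Y) (u : Y), A.piecewise y (Function.update z i u) =
      Function.update (A.piecewise y z) i u := by
    intro i hi z u
    funext k
    by_cases hki : k = i
    · subst hki; simp [hi]
    · by_cases hkA : k ∈ A <;> simp [hki, hkA]
  refine ⟨?_, ?_, ?_⟩
  · intro i hi z u w
    obtain ⟨hiI, hiA⟩ := Finset.mem_sdiff.1 hi
    show f (A.piecewise y (Function.update z i (u + w))) =
      f (A.piecewise y (Function.update z i u)) + f (A.piecewise y (Function.update z i w))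
    rw [key i hiA, key i hiA, key i hiA, hf.add i hiI]
  · intro i hi z c u
    obtain ⟨hiI, hiA⟩ := Finset.mem_sdiff.1 hi
    show f (A.piecewise y (Function.update z i (c • u))) =
      c • f (A.piecewise y (Function.update z i u))
    rw [key i hiA, key i hiA, hf.smul i hiI]
  · intro i hi z u
    show f (A.piecewise y (Function.update z i u)) = f (A.piecewise y z)
    refine hf.congr fun k hk => ?_
    by_cases hkA : k ∈ A
    · simp [hkA]
    · have hki : k ≠ i := fun h => hi (Finset.mem_sdiff.2 ⟨h ▸ hk, h ▸ hkA⟩)
      simp [hkA, hki]

/-- Substitution: insert `b` on `J` and a map `g` of type `K` in slot `j`. -/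
theorem MLin.subst {I : Finset ι} {T : (ι → Y) → V} (hT : MLin F I T) {j : ι} (hj : j ∈ I)
    (J : Finset ι) (b : ι → Y) {K : Finset ι} {g : (ι → Y) → Y} (hg : MLin F K g)
    (hd : Disjoint ((I.erase j) \ J) K) :
    MLin F (((I.erase j) \ J) ∪ K) (fun y => T (Function.update (J.piecewise b y) j (g y))) := by
  -- slots outside `(I.erase j) \ J` are not seen by `T`
  have k1 : ∀ i, i ∉ (I.erase j) \ J → ∀ (y : ι → Y) (u w : Y),
      T (Function.update (J.piecewise b (Function.update y i u)) j w) =
        T (Function.update (J.piecewise b y) j w) := by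
    intro i hi y u w
    refine hT.congr fun k hk => ?_
    by_cases hkj : k = j
    · subst hkj; simp
    · by_cases hkJ : k ∈ J
      · simp [hkj, hkJ]
      · have hki : k ≠ i := fun h => hi
          (Finset.mem_sdiff.2 ⟨Finset.mem_erase.2 ⟨h ▸ hkj, h ▸ hk⟩, h ▸ hkJ⟩)
        simp [hkj, hkJ, hki]
  -- slots in `(I.erase j) \ J`
  have k2 : ∀ i ∈ (I.erase j) \ J, ∀ (y : ι → Y) (u : Y),
      T (Function.update (J.piecewise b (Function.update y i u)) j (g (Function.update y i u))) =
        T (Function.update (Function.update (J.piecewise b y) j (g y)) i u) := by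
    intro i hi y u
    obtain ⟨hi1, hiJ⟩ := Finset.mem_sdiff.1 hi
    obtain ⟨hij, -⟩ := Finset.mem_erase.1 hi1
    rw [hg.off i (Finset.disjoint_left.1 hd hi)]
    congr 1
    funext k
    by_cases hkj : k = j
    · subst hkj
      simp [Ne.symm hij]
    · by_cases hki : k = i
      · subst hki; simp [hkj, hiJ]
      · by_cases hkJ : k ∈ J <;> simp [hkj, hki, hkJ]
  refine ⟨?_, ?_, ?_⟩
  · intro i hi y u w
    by_cases h1 : i ∈ (I.erase j) \ J
    · have hiI : i ∈ I := Finset.mem_of_mem_erase (Finset.mem_sdiff.1 h1).1
      show T (Function.update (J.piecewise b (Function.update y i (u + w))) j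
          (g (Function.update y i (u + w)))) = T (Function.update
          (J.piecewise b (Function.update y i u)) j (g (Function.update y i u))) +
          T (Function.update (J.piecewise b (Function.update y i w)) j (g (Function.update y i w)))
      rw [k2 i h1, k2 i h1, k2 i h1, hT.add i hiI]
    · have hiK : i ∈ K := (Finset.mem_union.1 hi).resolve_left h1
      show T (Function.update (J.piecewise b (Function.update y i (u + w))) j
          (g (Function.update y i (u + w)))) = T (Function.update
          (J.piecewise b (Function.update y i u)) j (g (Function.update y i u))) +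
          T (Function.update (J.piecewise b (Function.update y i w)) j (g (Function.update y i w)))
      rw [k1 i h1, k1 i h1, k1 i h1, hg.add i hiK, hT.add j hj]
  · intro i hi y c u
    by_cases h1 : i ∈ (I.erase j) \ J
    · have hiI : i ∈ I := Finset.mem_of_mem_erase (Finset.mem_sdiff.1 h1).1
      show T (Function.update (J.piecewise b (Function.update y i (c • u))) j
          (g (Function.update y i (c • u)))) = c • T (Function.update
          (J.piecewise b (Function.update y i u)) j (g (Function.update y i u)))
      rw [k2 i h1, k2 i h1, hT.smul i hiI]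
    · have hiK : i ∈ K := (Finset.mem_union.1 hi).resolve_left h1
      show T (Function.update (J.piecewise b (Function.update y i (c • u))) j
          (g (Function.update y i (c • u)))) = c • T (Function.update
          (J.piecewise b (Function.update y i u)) j (g (Function.update y i u)))
      rw [k1 i h1, k1 i h1, hg.smul i hiK, hT.smul j hj]
  · intro i hi y u
    rw [Finset.mem_union, not_or] at hi
    show T (Function.update (J.piecewise b (Function.update y i u)) j
        (g (Function.update y i u))) = T (Function.update (J.piecewise b y) j (g y))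
    rw [k1 i hi.1, hg.off i hi.2]

end MLinFacts

end PRAR
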