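import Pool.Agent.PRAR.BaE

/-! # Zero sets of forms and families -/

set_option autoImplicit false
set_option linter.unusedSectionVars false

open scoped Classical

noncomputable section

namespace PRAR

section MLinFacts

variable {ι : Type} [Fintype ι] {F : Type} [Field F] [Fintype F]
variable {Y V : Type} [AddCommGroup Y] [Module F Y] [Fintype Y] [AddCommGroup V] [Module F V]
  [Fintype V]

theorem baf_lin_ge (L : Y →ₗ[F] F) : (qq F)⁻¹ ≤ prob (fun u : Y => L u = 0) := by
  have h1 : prob (fun u : Y => L u = 0) = prob (fun u : Y => u ∈ LinearMap.ker L) :=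
    prob_congr fun u => (LinearMap.mem_ker).symm
  rw [h1, prob_mem]
  have h2 : codim (LinearMap.ker L) ≤ 1 := by
    rw [codim_ker]
    have := Submodule.finrank_le (LinearMap.range L)
    simpa using this
  have hq := one_lt_qq F
  have hq0 := qq_pos F
  have h3 : (qq F)⁻¹ ≤ 1 := inv_le_one_of_one_le₀ hq.le
  calc (qq F)⁻¹ = (qq F)⁻¹ ^ 1 := (pow_one _).symm
    _ ≤ (qq F)⁻¹ ^ codim (LinearMap.ker L) :=
      pow_le_pow_of_le_one (by positivity) h3 h2

/-- A scalar form of nonempty type vanishes with probability at least `1/q`. -/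
theorem prob_form_ge {I : Finset ι} (hI : I.Nonempty) {p : (ι → Y) → F} (hp : MLin F I p) :
    (qq F)⁻¹ ≤ prob (fun y => p y = 0) := by
  obtain ⟨i, hi⟩ := hI
  rw [← prob_update i (fun y => p y = 0)]
  have h1 : ∀ y : ι → Y, (qq F)⁻¹ ≤ prob (fun u : Y => p (Function.update y i u) = 0) :=
    fun y => baf_lin_ge (slotMap hp hi y)
  have h2 : avg (fun _ : ι → Y => (qq F)⁻¹) = (qq F)⁻¹ := avg_const _
  calc (qq F)⁻¹ = avg (fun _ : ι → Y => (qq F)⁻¹) := h2.symm
    _ ≤ _ := avg_mono h1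

theorem prob_zer_ge (P : Fam ι F Y) : (qq F)⁻¹ ^ P.card ≤ prob (fun y => y ∈ P.zer) := by
  have h1 : ∏ k ∈ (Finset.univ : Finset P.κ), prob (fun y => P.p k y = 0) ≤
      prob (fun y => ∀ k ∈ (Finset.univ : Finset P.κ), P.p k y = 0) :=
    corr_prod Finset.univ (W := fun k y => P.p k y = 0) fun k _ => (P.lin k).sl
  have hq0 := qq_pos F
  have h2 : (qq F)⁻¹ ^ P.card ≤ ∏ k ∈ (Finset.univ : Finset P.κ), prob (fun y => P.p k y = 0) := by
    have h3 : (qq F)⁻¹ ^ P.card = ∏ k ∈ (Finset.univ : Finset P.κ), (qq F)⁻¹ := by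
      rw [Finset.prod_const, Finset.card_univ]
      rfl
    rw [h3]
    exact Finset.prod_le_prod (fun k _ => by positivity) fun k _ =>
      prob_form_ge (P.ne k) (P.lin k)
  refine h2.trans (h1.trans (le_of_eq ?_))
  exact prob_congr fun y => ⟨fun h k => h k (Finset.mem_univ k), fun h k _ => h k⟩

/-- Sums of maps of the same type: zero probabilities multiply. -/
theorem prob_sum_ge {κ : Type*} (s : Finset κ) {I : Finset ι} {f : κ → (ι → Y) → V}
    (hf : ∀ k ∈ s, MLin F I (f k)) (c : ℕ)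
    (h : ∀ k ∈ s, (qq F)⁻¹ ^ c ≤ prob (fun y => f k y = 0)) :
    (qq F)⁻¹ ^ (s.card * c) ≤ prob (fun y => ∑ k ∈ s, f k y = 0) := by
  have h1 : ∏ k ∈ s, prob (fun y => f k y = 0) ≤
      prob (fun y => ∀ k ∈ s, f k y = 0) :=
    corr_prod s (W := fun k y => f k y = 0) fun k hk => (hf k hk).sl
  have hq0 := qq_pos F
  have h2 : (qq F)⁻¹ ^ (s.card * c) ≤ ∏ k ∈ s, prob (fun y => f k y = 0) := by
    have h3 : (qq F)⁻¹ ^ (s.card * c) = ∏ k ∈ s, (qq F)⁻¹ ^ c := by
      rw [Finset.prod_const, ← pow_mul, mul_comm]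
    rw [h3]
    exact Finset.prod_le_prod (fun k _ => by positivity) fun k hk => h k hk
  refine h2.trans (h1.trans (prob_mono ?_))
  intro y hy
  exact Finset.sum_eq_zero hy

/-- The family of all `y ↦ p_k (b on J, y off J)` of nonempty type. -/
def Fam.pull (P : Fam ι F Y) (b : ι → Y) : Fam ι F Y where
  κ := {x : P.κ × Finset ι // (P.ty x.1 \ x.2).Nonempty}
  fin := inferInstance
  ty x := P.ty x.1.1 \ x.1.2
  p x := fun y => P.p x.1.1 (x.1.2.piecewise b y)
  lin x := (P.lin x.1.1).fix x.1.2 b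
  ne x := x.2

theorem Fam.pull_card (P : Fam ι F Y) (b : ι → Y) :
    (P.pull b).card ≤ 2 ^ Fintype.card ι * P.card := by
  have h1 : (P.pull b).card = Fintype.card {x : P.κ × Finset ι // (P.ty x.1 \ x.2).Nonempty} := by
    unfold Fam.card
    exact Fintype.card_congr (Equiv.refl _)
  rw [h1]
  refine (Fintype.card_subtype_le _).trans ?_
  rw [Fintype.card_prod, Fintype.card_finset, mul_comm]
  rfl

theorem Fam.pull_on {P : Fam ι F Y} {A : Finset ι} (h : P.On A) (b : ι → Y) :
    (P.pull b).On A := by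
  intro x
  exact Finset.sdiff_subset.trans (h x.1.1)

theorem Fam.pull_zer (P : Fam ι F Y) {b : ι → Y} (hb : b ∈ P.zer) (y : ι → Y) :
    y ∈ (P.pull b).zer ↔ ∀ J : Finset ι, J.piecewise b y ∈ P.zer := by
  constructor
  · intro h J k
    by_cases hJ : (P.ty k \ J).Nonempty
    · exact h ⟨(k, J), hJ⟩
    · have h1 : P.p k (J.piecewise b y) = P.p k b := by
        apply (P.lin k).congr
        intro i hi
        have hiJ : i ∈ J := by
          by_contra hn
          exact hJ ⟨i, Finset.mem_sdiff.2 ⟨hi, hn⟩⟩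
        simp [hiJ]
      rw [h1]
      exact hb k
  · intro h x
    exact h x.1.2 x.1.1

end MLinFacts

end PRAR
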