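import Pool.Agent.PRAR.BaF

/-! # The shifting argument -/

set_option autoImplicit false
set_option linter.unusedSectionVars false

open scoped Classical

noncomputable section

namespace PRAR

section MLinFacts

variable {ι : Type} [Fintype ι] {F : Type} [Field F] [Fintype F]
variable {Y V : Type} [AddCommGroup Y] [Module F Y] [Fintype Y] [AddCommGroup V] [Module F V]
  [Fintype V]

omit [Field F] [Fintype F] [Module F Y] [Fintype Y] [Module F V] [AddCommGroup V] [Fintype V] in
theorem bag_update_y (L : Finset ι) (y v : ι → Y) (i : ι) :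
    Function.update (L.piecewise y v) i (y i) = (insert i L).piecewise y v := by
  rw [Finset.piecewise_insert]

omit [Field F] [Fintype F] [Module F Y] [Fintype Y] [Module F V] [AddCommGroup V] [Fintype V] in
theorem bag_update_v (L : Finset ι) (y v : ι → Y) (i : ι) :
    Function.update (L.piecewise y v) i (v i) = (L.erase i).piecewise y v := by
  ext j
  by_cases hj : j = i
  · subst hj
    rw [Function.update_self, Finset.piecewise_eq_of_notMem _ _ _ (Finset.notMem_erase j L)]
  · rw [Function.update_of_ne hj]
    by_cases hL : j ∈ L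
    · rw [Finset.piecewise_eq_of_mem _ _ _ hL,
        Finset.piecewise_eq_of_mem _ _ _ (Finset.mem_erase.mpr ⟨hj, hL⟩)]
    · rw [Finset.piecewise_eq_of_notMem _ _ _ hL, Finset.piecewise_eq_of_notMem _ _ _
        (fun h => hL (Finset.mem_of_mem_erase h))]

theorem bag_zero {I : Finset ι} {p : (ι → Y) → F} (hp : MLin F I p) {y v : ι → Y}
    (h0 : ∀ L : Finset ι, p (L.piecewise y v) = 0) (J : Finset ι) :
    ∀ L : Finset ι, p (J.piecewise (y + v) (L.piecewise y v)) = 0 := by
  induction J using Finset.induction_on with
  | empty => intro L; rw [Finset.piecewise_empty]; exact h0 L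
  | insert i J hi ih =>
    intro L
    rw [Finset.piecewise_insert]
    by_cases hI : i ∈ I
    · rw [Pi.add_apply, hp.add i hI, Finset.update_piecewise_of_notMem _ _ _ hi,
        Finset.update_piecewise_of_notMem _ _ _ hi, bag_update_y, bag_update_v, ih, ih, add_zero]
    · rw [hp.off i hI]
      exact ih L

theorem bag_union {κ α : Type*} [Fintype α] (s : Finset κ) (p : κ → α → Prop) :
    prob (fun x => ∃ j ∈ s, p j x) ≤ ∑ j ∈ s, prob (p j) := by
  induction s using Finset.induction_on with
  | empty =>
    rw [Finset.sum_empty]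
    unfold prob
    simp
  | insert i s hi ih =>
    rw [Finset.sum_insert hi]
    have h1 : prob (fun x => ∃ j ∈ insert i s, p j x) =
        prob (fun x => p i x ∨ ∃ j ∈ s, p j x) := by
      refine prob_congr fun x => ?_
      simp
    rw [h1]
    exact (prob_or_le _ _).trans (add_le_add le_rfl ih)

/-- Shifting to avoid a small bad set, for every point of the variety of `P`. -/
theorem exists_good_shift (P : Fam ι F Y) {y : ι → Y} (hy : y ∈ P.zer) (Bad : (ι → Y) → Prop)
    (h : 2 ^ Fintype.card ι * prob Bad < (qq F)⁻¹ ^ (2 ^ Fintype.card ι * P.card)) :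
    ∃ v : ι → Y, ∀ J : Finset ι, J.piecewise (y + v) v ∈ P.zer ∧ ¬ Bad (J.piecewise (y + v) v) := by
  have hW : ∀ v : ι → Y, v ∈ (P.pull y).zer → ∀ J : Finset ι,
      J.piecewise (y + v) v ∈ P.zer := by
    intro v hv J k
    have h1 := (P.pull_zer hy v).mp hv
    have h2 := bag_zero (P.lin k) (y := y) (v := v) (fun L => h1 L k) J ∅
    rwa [Finset.piecewise_empty] at h2
  have hB : ∀ J : Finset ι, prob (fun v : ι → Y => Bad (J.piecewise (y + v) v)) = prob Bad := by
    intro J
    rw [← prob_equiv (Equiv.addRight (J.piecewise y 0)) Bad]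
    refine prob_congr fun v => ?_
    have h1 : J.piecewise (y + v) v = Equiv.addRight (J.piecewise y 0) v := by
      show J.piecewise (y + v) v = v + J.piecewise y 0
      ext j
      by_cases hj : j ∈ J
      · rw [Finset.piecewise_eq_of_mem _ _ _ hj, Pi.add_apply, Pi.add_apply,
          Finset.piecewise_eq_of_mem _ _ _ hj, add_comm]
      · rw [Finset.piecewise_eq_of_notMem _ _ _ hj, Pi.add_apply,
          Finset.piecewise_eq_of_notMem _ _ _ hj, Pi.zero_apply, add_zero]
    rw [h1]
  by_contra hcon
  push Not at hcon
  have h3 : ∀ v : ι → Y, v ∈ (P.pull y).zer →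
      ∃ J ∈ (Finset.univ : Finset (Finset ι)), Bad (J.piecewise (y + v) v) := by
    intro v hv
    obtain ⟨J, hJ⟩ := hcon v
    exact ⟨J, Finset.mem_univ _, hJ (hW v hv J)⟩
  have h4 := (prob_mono h3).trans
    (bag_union (Finset.univ : Finset (Finset ι)) fun J v => Bad (J.piecewise (y + v) v))
  have h5 : ∑ J : Finset ι, prob (fun v : ι → Y => Bad (J.piecewise (y + v) v)) =
      2 ^ Fintype.card ι * prob Bad := by
    rw [Finset.sum_congr rfl fun J _ => hB J, Finset.sum_const, Finset.card_univ,
      Fintype.card_finset, nsmul_eq_mul]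
    push_cast
    ring
  rw [h5] at h4
  have h6 := prob_zer_ge (P.pull y)
  have h7 : (qq F)⁻¹ ^ (2 ^ Fintype.card ι * P.card) ≤ (qq F)⁻¹ ^ (P.pull y).card :=
    pow_le_pow_of_le_one (inv_nonneg.mpr (qq_pos F).le) (inv_le_one_of_one_le₀ (one_lt_qq F).le)
      (P.pull_card y)
  linarith

/-- Expansion `y_i = (y_i + v_i) - v_i` in the slots of `A`. -/
theorem MLin.expand {I : Finset ι} {T : (ι → Y) → V} (hT : MLin F I T) {A : Finset ι}
    (hA : A ⊆ I) (y v z : ι → Y) :
    T (A.piecewise y z) = ∑ J ∈ A.powerset, (-1 : F) ^ (A \ J).card •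
      T (A.piecewise (J.piecewise (y + v) v) z) := by
  induction A using Finset.induction_on generalizing z with
  | empty =>
    rw [Finset.powerset_empty, Finset.sum_singleton, Finset.piecewise_empty,
      Finset.piecewise_empty]
    simp
  | insert i A hi ih =>
    have hA' : A ⊆ I := fun j hj => hA (Finset.mem_insert_of_mem hj)
    have hiI : i ∈ I := hA (Finset.mem_insert_self i A)
    have h1 : T ((insert i A).piecewise y z) =
        T (A.piecewise y (Function.update z i ((y + v) i))) -
          T (A.piecewise y (Function.update z i (v i))) := by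
      rw [Finset.piecewise_insert, ← Finset.update_piecewise_of_notMem _ _ _ hi,
        ← Finset.update_piecewise_of_notMem _ _ _ hi, Pi.add_apply, hT.add i hiI,
        add_sub_cancel_right]
    rw [h1, ih hA', ih hA', Finset.sum_powerset_insert hi, sub_eq_add_neg, add_comm,
      ← Finset.sum_neg_distrib]
    congr 1
    · refine Finset.sum_congr rfl fun J hJ => ?_
      have hiJ : i ∉ J := fun h => hi (Finset.mem_powerset.mp hJ h)
      have h2 : ((insert i A) \ J).card = (A \ J).card + 1 := by
        rw [Finset.insert_sdiff_of_notMem _ hiJ, Finset.card_insert_of_notMem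
          (fun h => hi (Finset.mem_sdiff.mp h).1)]
      have h3 : (insert i A).piecewise (J.piecewise (y + v) v) z =
          A.piecewise (J.piecewise (y + v) v) (Function.update z i (v i)) := by
        rw [Finset.piecewise_insert, Finset.update_piecewise_of_notMem _ _ _ hi,
          Finset.piecewise_eq_of_notMem _ _ _ hiJ]
      rw [h2, h3, pow_succ, mul_neg, mul_one, neg_smul]
    · refine Finset.sum_congr rfl fun J hJ => ?_
      have hiJ : i ∉ J := fun h => hi (Finset.mem_powerset.mp hJ h)
      have h2 : (insert i A) \ (insert i J) = A \ J := by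
        ext j
        simp only [Finset.mem_sdiff, Finset.mem_insert, not_or]
        constructor
        · rintro ⟨h | h, h', h''⟩
          · exact absurd h h'
          · exact ⟨h, h''⟩
        · rintro ⟨h, h'⟩
          exact ⟨Or.inr h, fun e => hi (e ▸ h), h'⟩
      have h3 : (insert i A).piecewise ((insert i J).piecewise (y + v) v) z =
          A.piecewise (J.piecewise (y + v) v) (Function.update z i ((y + v) i)) := by
        rw [Finset.piecewise_insert, Finset.update_piecewise_of_notMem _ _ _ hi,
          Finset.piecewise_eq_of_mem _ _ _ (Finset.mem_insert_self i J)]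
        ext j
        by_cases hj : j ∈ A
        · have hji : j ≠ i := fun e => hi (e ▸ hj)
          rw [Finset.piecewise_eq_of_mem _ _ _ hj, Finset.piecewise_eq_of_mem _ _ _ hj,
            Finset.piecewise_insert, Function.update_of_ne hji]
        · rw [Finset.piecewise_eq_of_notMem _ _ _ hj, Finset.piecewise_eq_of_notMem _ _ _ hj]
      rw [h2, h3]

end MLinFacts

end PRAR
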