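import Pool.Agent.PRAR.BaE

/-! # Products from linear maps of small rank -/

set_option autoImplicit false
set_option linter.unusedSectionVars false

open scoped Classical

noncomputable section

namespace PRAR

section MLinFacts

variable {ι : Type} [Fintype ι] {F : Type} [Field F] [Fintype F]
variable {Y V : Type} [AddCommGroup Y] [Module F Y] [Fintype Y] [AddCommGroup V] [Module F V]
  [Fintype V]

/-- A linear map of rank `r` is a sum of `r` rank one maps. -/
theorem bah_rank {A B : Type} [AddCommGroup A] [Module F A] [AddCommGroup B] [Module F B]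
    [Fintype B] (L : A →ₗ[F] B) :
    ∃ (lam : Fin (Module.finrank F (LinearMap.range L)) → (A →ₗ[F] F))
      (e : Fin (Module.finrank F (LinearMap.range L)) → B), ∀ x, L x = ∑ s, lam s x • e s := by
  have b := Module.finBasis F (LinearMap.range L)
  refine ⟨fun s => (b.coord s).comp L.rangeRestrict, fun s => (b s : B), fun x => ?_⟩
  have h := b.sum_repr (L.rangeRestrict x)
  have h2 := congrArg (fun z : LinearMap.range L => (z : B)) h
  simp only [Submodule.coe_sum, Submodule.coe_smul] at h2
  have h3 : ((L.rangeRestrict x : LinearMap.range L) : B) = L x := rfl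
  rw [h3] at h2
  rw [← h2]
  rfl

/-- A linear functional read in slot `j` has type `{j}`. -/
theorem bah_coord (j : ι) (lam : Y →ₗ[F] F) : MLin F {j} (fun y : ι → Y => lam (y j)) := by
  refine ⟨?_, ?_, ?_⟩
  · intro i hi y u v
    rw [Finset.mem_singleton] at hi
    subst hi
    simp
  · intro i hi y c u
    rw [Finset.mem_singleton] at hi
    subst hi
    simp
  · intro i hi y u
    rw [Finset.mem_singleton] at hi
    rw [Function.update_of_ne (Ne.symm hi)]

/-- Fixing slot `j` to a vector gives type `I \ {j}`. -/
theorem bah_fix {I : Finset ι} {T : (ι → Y) → V} (hT : MLin F I T) (j : ι) (e : Y) :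
    MLin F (I \ {j}) (fun y => T (Function.update y j e)) := by
  refine ⟨?_, ?_, ?_⟩
  · intro i hi y u v
    rw [Finset.mem_sdiff, Finset.mem_singleton] at hi
    rw [Function.update_comm hi.2, Function.update_comm hi.2, Function.update_comm hi.2,
      hT.add i hi.1]
  · intro i hi y c u
    rw [Finset.mem_sdiff, Finset.mem_singleton] at hi
    rw [Function.update_comm hi.2, Function.update_comm hi.2, hT.smul i hi.1]
  · intro i hi y u
    rw [Finset.mem_sdiff, Finset.mem_singleton, not_and, not_not] at hi
    by_cases hij : i = j
    · subst hij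
      rw [Function.update_idem]
    · have hiI : i ∉ I := fun h => hij (hi h)
      rw [Function.update_comm hij, hT.off i hiI]

/-- A map composed in slot `j` with a linear map of rank `r` is a sum of `r` products. -/
theorem PRle_slot {I : Finset ι} {T : (ι → Y) → V} (hT : MLin F I T) {j : ι} (hj : j ∈ I)
    (L : Y →ₗ[F] Y) :
    PRle F I (fun y => T (Function.update y j (L (y j)))) (Module.finrank F (LinearMap.range L)) := by
  obtain ⟨lam, e, hL⟩ := bah_rank L
  refine ⟨fun s y => lam s (y j) • T (Function.update y j (e s)), fun s => ?_, fun y => ?_⟩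
  · exact ⟨{j}, Finset.singleton_nonempty j, Finset.singleton_subset_iff.2 hj,
      fun y => lam s (y j), fun y => T (Function.update y j (e s)), bah_coord j (lam s),
      bah_fix hT j (e s), fun y => rfl⟩
  · have h1 : T (Function.update y j (L (y j))) = slotMap hT hj y (L (y j)) := rfl
    show T (Function.update y j (L (y j))) = ∑ s, lam s (y j) • T (Function.update y j (e s))
    rw [h1, hL (y j), map_sum]
    refine Finset.sum_congr rfl fun s _ => ?_
    rw [map_smul]
    rfl

/-- A linear map of rank `r` applied to the values gives a sum of `r` products. -/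
theorem PRle_target {I : Finset ι} (hI : I.Nonempty) {T : (ι → Y) → V} (hT : MLin F I T)
    (L : V →ₗ[F] V) :
    PRle F I (fun y => L (T y)) (Module.finrank F (LinearMap.range L)) := by
  obtain ⟨lam, e, hL⟩ := bah_rank L
  refine ⟨fun s y => lam s (T y) • e s, fun s => ?_, fun y => hL (T y)⟩
  refine ⟨I, hI, le_rfl, fun y => lam s (T y), fun _ => e s, hT.comp (lam s), ?_, fun y => rfl⟩
  rw [Finset.sdiff_self]
  exact ⟨by intro i hi; simp at hi, by intro i hi; simp at hi, by intros; rfl⟩

end MLinFacts

end PRAR
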