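import Pool.Agent.PRAR.Stmt
import Pool.Agent.PRAR.BaA
import Pool.Agent.PRAR.BaB
import Pool.Agent.PRAR.BaC
import Pool.Agent.PRAR.BaD
import Pool.Agent.PRAR.BaE
import Pool.Agent.PRAR.BaF
import Pool.Agent.PRAR.BaG
import Pool.Agent.PRAR.BaH

/-! # Basic facts (section 1) -/
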