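import Mathlib

/-!
# Partition rank versus analytic rank over finite fields: definitions

Proof document: team-store `h99_prar.md`.  All multilinear objects are plain functions on `ι → Y`
(`ι` = finite set of slots, the same finite vector space `Y` in every slot); `MLin F I f` says that
`f` only depends on the slots in `I` and is linear in each of them.
-/

set_option autoImplicit false

open scoped Classical

noncomputable section

namespace PRAR

/-- Uniform probability of a predicate on a finite type. -/
def prob {α : Type*} [Fintype α] (p : α → Prop) : ℝ :=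
  ((Finset.univ.filter p).card : ℝ) / (Fintype.card α : ℝ)

/-- Uniform average of a real function on a finite type. -/
def avg {α : Type*} [Fintype α] (f : α → ℝ) : ℝ :=
  (∑ x, f x) / (Fintype.card α : ℝ)

/-- The number of elements of the field as a real number. -/
abbrev qq (F : Type) [Fintype F] : ℝ := (Fintype.card F : ℝ)

section

variable {ι : Type} [Fintype ι] (F : Type) [Field F]
variable {Y V : Type} [AddCommGroup Y] [Module F Y] [AddCommGroup V] [Module F V]

/-- `f` depends only on the slots in `I` and is `F`-linear in each of them (type `I`). -/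
structure MLin (I : Finset ι) (f : (ι → Y) → V) : Prop where
  add : ∀ i ∈ I, ∀ (y : ι → Y) (u v : Y), f (Function.update y i (u + v)) =
    f (Function.update y i u) + f (Function.update y i v)
  smul : ∀ i ∈ I, ∀ (y : ι → Y) (c : F) (u : Y), f (Function.update y i (c • u)) =
    c • f (Function.update y i u)
  off : ∀ i, i ∉ I → ∀ (y : ι → Y) (u : Y), f (Function.update y i u) = f y

/-- A product of type `I`: a scalar form of nonempty type `J ⊆ I` times a `V`-valued map of type
`I \ J`. -/
def IsProd (I : Finset ι) (g : (ι → Y) → V) : Prop :=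
  ∃ J : Finset ι, J.Nonempty ∧ J ⊆ I ∧ ∃ (p : (ι → Y) → F) (v : (ι → Y) → V),
    MLin F J p ∧ MLin F (I \ J) v ∧ ∀ y, g y = p y • v y

/-- `f` is a sum of `r` products of type `I` (partition rank at most `r`). -/
def PRle (I : Finset ι) (f : (ι → Y) → V) (r : ℕ) : Prop :=
  ∃ g : Fin r → (ι → Y) → V, (∀ s, IsProd F I (g s)) ∧ ∀ y, f y = ∑ s, g s y

end

/-- The statement `D(I)` with constant `C` over the field `F`. -/
def DD {ι : Type} [Fintype ι] (F : Type) [Field F] [Fintype F] (I : Finset ι) (C : ℕ) : Prop :=
  ∀ (Y V : Type) [AddCommGroup Y] [Module F Y] [Fintype Y] [AddCommGroup V] [Module F V]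
    [Fintype V] (f : (ι → Y) → V), MLin F I f → ∀ a : ℕ,
    (qq F)⁻¹ ^ a ≤ prob (fun y : ι → Y => f y = 0) → ∃ r ≤ C * (a + 1), PRle F I f r

/-- A finite family of scalar forms of nonempty types. -/
structure Fam (ι : Type) [Fintype ι] (F : Type) [Field F] (Y : Type) [AddCommGroup Y]
    [Module F Y] where
  κ : Type
  fin : Fintype κ
  ty : κ → Finset ι
  p : κ → (ι → Y) → F
  lin : ∀ k, MLin F (ty k) (p k)
  ne : ∀ k, (ty k).Nonempty

namespace Fam

variable {ι : Type} [Fintype ι] {F : Type} [Field F] {Y : Type} [AddCommGroup Y] [Module F Y]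

instance (P : Fam ι F Y) : Fintype P.κ := P.fin

/-- Number of forms. -/
def card (P : Fam ι F Y) : ℕ := Fintype.card P.κ

/-- The common zero set. -/
def zer (P : Fam ι F Y) : Set (ι → Y) := {y | ∀ k, P.p k y = 0}

/-- All types are contained in `A`. -/
def On (P : Fam ι F Y) (A : Finset ι) : Prop := ∀ k, P.ty k ⊆ A

/-- Number of forms of type exactly `I`. -/
def cnt (P : Fam ι F Y) (I : Finset ι) : ℕ := Fintype.card {k : P.κ // P.ty k = I}

/-- The vector of all forms of type exactly `I`. -/
def vec (P : Fam ι F Y) (I : Finset ι) : (ι → Y) → ({k : P.κ // P.ty k = I} → F) :=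
  fun y k => P.p k.1 y

end Fam

section

variable {ι : Type} [Fintype ι] {F : Type} [Field F] [Fintype F]
variable {Y V : Type} [AddCommGroup Y] [Module F Y] [Fintype Y] [AddCommGroup V] [Module F V]

/-- Probability that `f` vanishes on a random grid with `M` copies in every slot. -/
def ZU (f : (ι → Y) → V) (M : ℕ) : ℝ :=
  prob (fun yb : ι → Fin M → Y => ∀ α : ι → Fin M, f (fun i => yb i (α i)) = 0)

variable (F) in
/-- `(M,τ)`-regularity of a map of type `I` whose target has dimension `s`. -/
def Reg (I : Finset ι) (f : (ι → Y) → V) (s : ℕ) (τ : ℝ) (M : ℕ) : Prop :=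
  ZU f M ≤ (qq F) ^ (-(((s : ℝ) - τ) * (M : ℝ) ^ I.card))

/-- Partial zero probability: the slots in `A` are fixed to `y`, the others are random. -/
def ZA (A : Finset ι) (T : (ι → Y) → V) (y : ι → Y) : ℝ :=
  prob (fun z : ι → Y => T (A.piecewise y z) = 0)

/-- `Small A c P T`: on the variety of `P`, the map `T(y_A, ·)` has analytic rank at most `c`. -/
def Small (A : Finset ι) (c : ℕ) (P : Fam ι F Y) (T : (ι → Y) → V) : Prop :=
  ∀ y ∈ P.zer, (qq F)⁻¹ ^ c ≤ ZA A T y

/-- The linear map `x ↦ T (y with x in slot i)` for a map of type `I ∋ i`. -/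
def slotMap {I : Finset ι} {T : (ι → Y) → V} (hT : MLin F I T) {i : ι} (hi : i ∈ I)
    (y : ι → Y) : Y →ₗ[F] V where
  toFun x := T (Function.update y i x)
  map_add' u v := hT.add i hi y u v
  map_smul' c u := by simpa using hT.smul i hi y c u

end

section

variable {ι : Type} [Fintype ι] {F : Type} [Field F] {Y : Type} [AddCommGroup Y] [Module F Y]

/-- Index set of the functionals of Lemma R: a form `k` containing `j` and a subset `J` of its
other slots (where `b` is inserted). -/
def RIdx (P : Fam ι F Y) (j : ι) : Type :=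
  {x : P.κ × Finset ι // j ∈ P.ty x.1 ∧ x.2 ⊆ (P.ty x.1).erase j}

instance (P : Fam ι F Y) (j : ι) : Fintype (RIdx P j) := by
  unfold RIdx; infer_instance

/-- The functional `u ↦ p_k(b on J, y off J, u in slot j)`. -/
def rfun (P : Fam ι F Y) (j : ι) (y b : ι → Y) (x : RIdx P j) : Y →ₗ[F] F where
  toFun u := P.p x.1.1 (Function.update (x.1.2.piecewise b y) j u)
  map_add' u v := (P.lin x.1.1).add j x.2.1 _ u v
  map_smul' c u := by simpa using (P.lin x.1.1).smul j x.2.1 _ c u

/-- The space of linear relations between the functionals `rfun P j y b x`. -/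
def relSpace (P : Fam ι F Y) (j : ι) (y b : ι → Y) : Submodule F (RIdx P j → F) where
  carrier := {c | ∀ u, ∑ x, c x * rfun P j y b x u = 0}
  add_mem' := by
    intro a b ha hb u
    simp only [Set.mem_ofPred_eq] at ha hb
    simp only [Pi.add_apply, add_mul, Finset.sum_add_distrib, ha u, hb u, add_zero]
  zero_mem' := by intro u; simp
  smul_mem' := by
    intro c a ha u
    simp only [Set.mem_ofPred_eq] at ha
    simp only [Pi.smul_apply, smul_eq_mul, mul_assoc, ← Finset.mul_sum, ha u, mul_zero]

/-- Dimension of the space of relations. -/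
def dep (P : Fam ι F Y) (j : ι) (y b : ι → Y) : ℕ := Module.finrank F (relSpace P j y b)

end

end PRAR
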