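import Pool.Agent.PRAR.Main
import Pool.Agent.PRAR.K.H
import Pool.Agent.PRAR.K.I
import Pool.Agent.PRAR.R.Z
import Pool.Agent.PRAR.H.Z
import Pool.Agent.PRAR.A.Z
import Pool.Agent.PRAR.E.Z
import Pool.Agent.PRAR.E.Es
import Pool.Agent.PRAR.S.Z
import Pool.Agent.PRAR.D.Z
import Pool.Agent.PRAR.G.Z

/-! # Final assembly -/

set_option autoImplicit false
set_option linter.unusedSectionVars false

open scoped Classical

noncomputable section

namespace PRAR

/-- The Main Theorem for every slot set. -/
theorem main_all (ι : Type) [Fintype ι] : StmtMain ι :=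
  main_of (lemH ι)
    (esOfE ι (lemE ι
      (fun A C => regOfDec ι A C (fun I hI => decOfS ι I hI C (thmS ι I))) (lemR ι)))
    (fun I i0 C => lemA ι I i0 C)

/-- The linear bound for scalar forms. -/
theorem scalarBound_all (ι : Type) [Fintype ι] (i0 : ι) (hι : ∃ i : ι, i ≠ i0) :
    ScalarBound ι i0 := scalar_bound ι i0 hι (DD_all ι (main_all ι))

end PRAR
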