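import Pool.Agent.PRAR.Defs

/-! # Basic lemmas on `PRle`, `DD`, `prob` -/

set_option autoImplicit false
set_option linter.unusedSectionVars false

open scoped Classical

noncomputable section

namespace PRAR

section prob

variable {α β : Type*} [Fintype α] [Fintype β]

theorem prob_nonneg (p : α → Prop) : 0 ≤ prob p := by unfold prob; positivity

theorem prob_le_one (p : α → Prop) : prob p ≤ 1 := by
  unfold prob
  apply div_le_one_of_le₀
  · exact_mod_cast Finset.card_le_univ _
  · positivity

theorem prob_mono {p r : α → Prop} (h : ∀ x, p x → r x) : prob p ≤ prob r := by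
  unfold prob
  gcongr
  intro hx
  exact h _ ‹_›

theorem prob_congr {p r : α → Prop} (h : ∀ x, p x ↔ r x) : prob p = prob r :=
  le_antisymm (prob_mono fun x => (h x).1) (prob_mono fun x => (h x).2)

/-- `prob` as an average of indicators. -/
theorem prob_eq_avg (p : α → Prop) : prob p = avg (fun x => if p x then (1 : ℝ) else 0) := by
  unfold prob avg
  simp

theorem avg_nonneg {f : α → ℝ} (h : ∀ x, 0 ≤ f x) : 0 ≤ avg f := by
  unfold avg
  exact div_nonneg (Finset.sum_nonneg fun x _ => h x) (by positivity)

theorem avg_mono {f g : α → ℝ} (h : ∀ x, f x ≤ g x) : avg f ≤ avg g := by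
  unfold avg
  gcongr
  exact h _

/-- A bijective change of variables. -/
theorem avg_equiv (e : α ≃ β) (f : β → ℝ) : avg (fun x => f (e x)) = avg f := by
  unfold avg
  rw [Fintype.card_congr e, Equiv.sum_comp e]

theorem prob_equiv (e : α ≃ β) (p : β → Prop) : prob (fun x => p (e x)) = prob p := by
  rw [prob_eq_avg, prob_eq_avg]
  exact avg_equiv e (fun y => if p y then (1 : ℝ) else 0)

theorem avg_const_mul (c : ℝ) (f : α → ℝ) : avg (fun x => c * f x) = c * avg f := by
  unfold avg
  rw [← Finset.mul_sum, mul_div_assoc]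

theorem avg_add (f g : α → ℝ) : avg (fun x => f x + g x) = avg f + avg g := by
  unfold avg
  rw [Finset.sum_add_distrib, add_div]

theorem avg_const [Nonempty α] (c : ℝ) : avg (fun _ : α => c) = c := by
  unfold avg
  rw [Finset.sum_const, Finset.card_univ, nsmul_eq_mul]
  field_simp

theorem prob_le_of_equiv_one [Nonempty α] {p : α → Prop} (h : ∀ x, p x) : prob p = 1 := by
  rw [prob_eq_avg]
  simp only [h, if_true]
  exact avg_const 1

/-- If the probability is at least `1`, the predicate holds everywhere. -/
theorem forall_of_one_le_prob {p : α → Prop} (h : 1 ≤ prob p) (x : α) : p x := by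
  by_contra hx
  unfold prob at h
  have hc : 0 < Fintype.card α := Fintype.card_pos_iff.2 ⟨x⟩
  rw [le_div_iff₀ (by exact_mod_cast hc), one_mul] at h
  have h2 : (Finset.univ.filter p).card < Fintype.card α := by
    rw [← Finset.card_univ]
    apply Finset.card_lt_card
    refine ⟨Finset.filter_subset _ _, fun hs => hx ?_⟩
    have := hs (Finset.mem_univ x)
    simpa using this
  have h3 : Fintype.card α ≤ (Finset.univ.filter p).card := by exact_mod_cast h
  omega

/-- Union bound. -/
theorem prob_or_le (p r : α → Prop) : prob (fun x => p x ∨ r x) ≤ prob p + prob r := by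
  rw [prob_eq_avg, prob_eq_avg, prob_eq_avg, ← avg_add]
  apply avg_mono
  intro x
  by_cases h1 : p x <;> by_cases h2 : r x <;> simp [h1, h2]

/-- Positive probability gives a point. -/
theorem exists_of_prob_pos {p : α → Prop} (h : 0 < prob p) : ∃ x, p x := by
  by_contra hne
  push Not at hne
  have : prob p = 0 := by
    unfold prob
    simp [hne]
  linarith

/-- Fubini. -/
theorem avg_prod (f : α × β → ℝ) : avg f = avg (fun x => avg (fun y => f (x, y))) := by
  unfold avg
  rw [Fintype.sum_prod_type, Fintype.card_prod]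
  push_cast
  rw [← Finset.sum_div, div_div, mul_comm]

theorem avg_comm (f : α → β → ℝ) :
    avg (fun x => avg (fun y => f x y)) = avg (fun y => avg (fun x => f x y)) := by
  unfold avg
  simp_rw [← Finset.sum_div]
  rw [Finset.sum_comm, div_div, div_div, mul_comm]

theorem prob_prod (p : α × β → Prop) : prob p = avg (fun x => prob (fun y => p (x, y))) := by
  rw [prob_eq_avg, avg_prod]
  simp_rw [prob_eq_avg]

end prob

section qq

variable (F : Type) [Field F] [Fintype F]

theorem two_le_qq : 2 ≤ qq F := by
  have : 1 < Fintype.card F := Fintype.one_lt_card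
  show (2 : ℝ) ≤ (Fintype.card F : ℝ)
  exact_mod_cast this

theorem qq_pos : 0 < qq F := by linarith [two_le_qq F]

theorem one_lt_qq : 1 < qq F := by linarith [two_le_qq F]

end qq

section PR

variable {ι : Type} [Fintype ι] {F : Type} [Field F]
variable {Y V : Type} [AddCommGroup Y] [Module F Y] [AddCommGroup V] [Module F V]

theorem MLin.zero (I : Finset ι) : MLin F I (fun _ : ι → Y => (0 : V)) :=
  ⟨by intros; simp, by intros; simp, by intros; rfl⟩

theorem MLin.add' {I : Finset ι} {f g : (ι → Y) → V} (hf : MLin F I f) (hg : MLin F I g) :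
    MLin F I (fun y => f y + g y) := by
  refine ⟨?_, ?_, ?_⟩
  · intro i hi y u v
    rw [hf.add i hi, hg.add i hi]; abel
  · intro i hi y c u
    rw [hf.smul i hi, hg.smul i hi, smul_add]
  · intro i hi y u
    rw [hf.off i hi, hg.off i hi]

theorem MLin.smul' {I : Finset ι} {f : (ι → Y) → V} (hf : MLin F I f) (c : F) :
    MLin F I (fun y => c • f y) := by
  refine ⟨?_, ?_, ?_⟩
  · intro i hi y u v
    rw [hf.add i hi, smul_add]
  · intro i hi y d u
    rw [hf.smul i hi, smul_comm]
  · intro i hi y u
    rw [hf.off i hi]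

theorem MLin.neg' {I : Finset ι} {f : (ι → Y) → V} (hf : MLin F I f) :
    MLin F I (fun y => - f y) := by
  have := hf.smul' (-1)
  simpa using this

theorem MLin.sub' {I : Finset ι} {f g : (ι → Y) → V} (hf : MLin F I f) (hg : MLin F I g) :
    MLin F I (fun y => f y - g y) := by
  have := hf.add' hg.neg'
  simpa [sub_eq_add_neg] using this

theorem MLin.sum' {I : Finset ι} {σ : Type*} (s : Finset σ) {f : σ → (ι → Y) → V}
    (hf : ∀ k ∈ s, MLin F I (f k)) : MLin F I (fun y => ∑ k ∈ s, f k y) := by
  classical
  induction s using Finset.induction_on with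
  | empty => simpa using MLin.zero I
  | insert a s ha ih =>
    simp only [Finset.sum_insert ha]
    exact (hf a (Finset.mem_insert_self a s)).add'
      (ih fun k hk => hf k (Finset.mem_insert_of_mem hk))

/-- Composition with a linear map on the target. -/
theorem MLin.comp {W : Type} [AddCommGroup W] [Module F W] {I : Finset ι} {f : (ι → Y) → V}
    (hf : MLin F I f) (L : V →ₗ[F] W) : MLin F I (fun y => L (f y)) := by
  refine ⟨?_, ?_, ?_⟩
  · intro i hi y u v
    rw [hf.add i hi, map_add]
  · intro i hi y c u
    rw [hf.smul i hi, map_smul]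
  · intro i hi y u
    rw [hf.off i hi]

/-- Two points which agree on `I` have the same value. -/
theorem MLin.congr {I : Finset ι} {f : (ι → Y) → V} (hf : MLin F I f) {y z : ι → Y}
    (h : ∀ i ∈ I, y i = z i) : f y = f z := by
  classical
  have key : ∀ s : Finset ι, f (s.piecewise z y) = f y := by
    intro s
    induction s using Finset.induction_on with
    | empty => simp
    | insert a s ha ih =>
      rw [Finset.piecewise_insert]
      by_cases haI : a ∈ I
      · have : Function.update (s.piecewise z y) a (z a) = s.piecewise z y := by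
          rw [← h a haI]
          have : (s.piecewise z y) a = y a := by simp [ha]
          rw [← this]; exact Function.update_eq_self a _
        rw [this, ih]
      · rw [hf.off a haI, ih]
  have := key Finset.univ
  simpa using this.symm

theorem MLin.update_zero {I : Finset ι} {f : (ι → Y) → V} (hf : MLin F I f) {i : ι} (hi : i ∈ I)
    (y : ι → Y) : f (Function.update y i 0) = 0 := by
  have := hf.smul i hi y 0 0
  simpa using this

theorem MLin.eq_zero_of_coord {I : Finset ι} {f : (ι → Y) → V} (hf : MLin F I f) {i : ι}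
    (hi : i ∈ I) {y : ι → Y} (hy : y i = 0) : f y = 0 := by
  have := hf.update_zero hi y
  rwa [← hy, Function.update_eq_self] at this

/-- The product of maps of disjoint types. -/
theorem MLin.mul {I J K : Finset ι} (hd : Disjoint I J) (hK : K = I ∪ J) {p : (ι → Y) → F}
    {v : (ι → Y) → V} (hp : MLin F I p) (hv : MLin F J v) : MLin F K (fun y => p y • v y) := by
  subst hK
  refine ⟨?_, ?_, ?_⟩
  · intro i hi y u w
    rcases Finset.mem_union.1 hi with h | h
    · have h' : i ∉ J := Finset.disjoint_left.1 hd h
      rw [hp.add i h, hv.off i h', hv.off i h', hv.off i h', add_smul]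
    · have h' : i ∉ I := Finset.disjoint_right.1 hd h
      rw [hv.add i h, hp.off i h', hp.off i h', hp.off i h', smul_add]
  · intro i hi y c u
    rcases Finset.mem_union.1 hi with h | h
    · have h' : i ∉ J := Finset.disjoint_left.1 hd h
      rw [hp.smul i h, hv.off i h', hv.off i h', smul_eq_mul, mul_smul]
    · have h' : i ∉ I := Finset.disjoint_right.1 hd h
      rw [hv.smul i h, hp.off i h', hp.off i h', smul_comm]
  · intro i hi y u
    rw [Finset.mem_union, not_or] at hi
    rw [hp.off i hi.1, hv.off i hi.2]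

theorem IsProd.mlin {I : Finset ι} {g : (ι → Y) → V} (h : IsProd F I g) : MLin F I g := by
  obtain ⟨J, _, hJI, p, v, hp, hv, hg⟩ := h
  have : MLin F I (fun y => p y • v y) :=
    MLin.mul (Finset.disjoint_sdiff) (Finset.union_sdiff_of_subset hJI).symm hp hv
  have he : g = fun y => p y • v y := funext hg
  rw [he]; exact this

theorem isProd_zero {I : Finset ι} (hI : I.Nonempty) : IsProd F I (fun _ : ι → Y => (0 : V)) :=
  ⟨I, hI, le_rfl, fun _ => 0, fun _ => 0, MLin.zero _, MLin.zero _, by intro y; simp⟩

theorem PRle.mlin {I : Finset ι} {f : (ι → Y) → V} {r : ℕ} (h : PRle F I f r) : MLin F I f := by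
  obtain ⟨g, hg, hf⟩ := h
  have he : f = fun y => ∑ s, g s y := funext hf
  rw [he]; exact MLin.sum' _ fun k _ => (hg k).mlin

theorem PRle.zero (I : Finset ι) : PRle F I (fun _ : ι → Y => (0 : V)) 0 :=
  ⟨fun s => s.elim0, fun s => s.elim0, by intro y; simp⟩

theorem PRle.of_eq {I : Finset ι} {f g : (ι → Y) → V} {r : ℕ} (h : PRle F I f r)
    (he : ∀ y, g y = f y) : PRle F I g r := by
  obtain ⟨u, hu, hf⟩ := h
  exact ⟨u, hu, fun y => by rw [he, hf]⟩

theorem PRle.add {I : Finset ι} {f g : (ι → Y) → V} {r s : ℕ} (hf : PRle F I f r)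
    (hg : PRle F I g s) : PRle F I (fun y => f y + g y) (r + s) := by
  obtain ⟨u, hu, hf⟩ := hf
  obtain ⟨v, hv, hg⟩ := hg
  refine ⟨Fin.append u v, ?_, ?_⟩
  · intro k
    refine Fin.addCases (fun i => ?_) (fun i => ?_) k
    · rw [Fin.append_left]; exact hu i
    · rw [Fin.append_right]; exact hv i
  · intro y
    rw [Fin.sum_univ_add]
    simp only [Fin.append_left, Fin.append_right]
    rw [hf, hg]

theorem PRle.mono {I : Finset ι} (hI : I.Nonempty) {f : (ι → Y) → V} {r s : ℕ}
    (hf : PRle F I f r) (h : r ≤ s) : PRle F I f s := by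
  obtain ⟨k, rfl⟩ := Nat.exists_eq_add_of_le h
  have hz : PRle F I (fun _ : ι → Y => (0 : V)) k :=
    ⟨fun _ _ => 0, fun _ => isProd_zero hI, by intro y; simp⟩
  exact (hf.add hz).of_eq (by intro y; simp)

theorem PRle.of_isProd {I : Finset ι} {g : (ι → Y) → V} (h : IsProd F I g) : PRle F I g 1 :=
  ⟨fun _ => g, fun _ => h, by intro y; simp⟩

theorem PRle.sum {I : Finset ι} (hI : I.Nonempty) {σ : Type*} (s : Finset σ)
    {f : σ → (ι → Y) → V} {r : ℕ} (hf : ∀ k ∈ s, PRle F I (f k) r) :
    PRle F I (fun y => ∑ k ∈ s, f k y) (s.card * r) := by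
  classical
  induction s using Finset.induction_on with
  | empty => simpa using (PRle.zero I).of_eq (by intro y; simp)
  | insert a s ha ih =>
    have h1 := hf a (Finset.mem_insert_self a s)
    have h2 := ih fun k hk => hf k (Finset.mem_insert_of_mem hk)
    refine ((h1.add h2).of_eq ?_).mono hI ?_
    · intro y; rw [Finset.sum_insert ha]
    · rw [Finset.card_insert_of_notMem ha]; ring_nf; rfl

/-- Transitivity: `T - T'` and `T' - T''`. -/
theorem PRle.trans {I : Finset ι} {f g h : (ι → Y) → V} {r s : ℕ} (hf : PRle F I (f - g) r)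
    (hg : PRle F I (g - h) s) : PRle F I (f - h) (r + s) :=
  (hf.add hg).of_eq (by intro y; simp)

end PR

theorem DD.mono {ι : Type} [Fintype ι] {F : Type} [Field F] [Fintype F] {I : Finset ι} {C C' : ℕ}
    (h : DD F I C) (hC : C ≤ C') : DD F I C' := by
  intro Y V _ _ _ _ _ _ f hf a ha
  obtain ⟨r, hr, hp⟩ := h Y V f hf a ha
  exact ⟨r, hr.trans (Nat.mul_le_mul_right _ hC), hp⟩

/-- `D(∅)` holds with any constant. -/
theorem DD_empty {ι : Type} [Fintype ι] (F : Type) [Field F] [Fintype F] (C : ℕ) :
    DD F (∅ : Finset ι) C := by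
  intro Y V _ _ _ _ _ _ f hf a ha
  have hpos : 0 < prob (fun y : ι → Y => f y = 0) := by
    refine lt_of_lt_of_le ?_ ha
    have := qq_pos F
    positivity
  obtain ⟨x, hx⟩ := exists_of_prob_pos hpos
  have : ∀ y, f y = 0 := by
    intro y
    rw [← hx]
    exact hf.congr (by simp)
  exact ⟨0, Nat.zero_le _, (PRle.zero ∅).of_eq this⟩

end PRAR
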