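import Pool.Agent.PRAR.Stmt
import Pool.Agent.PRAR.PRBasic

/-! # The Main Theorem from Lemma A, Lemma H and Corollary E* (section 9) -/

set_option autoImplicit false
set_option linter.unusedSectionVars false

open scoped Classical

noncomputable section

namespace PRAR

section

variable {ι : Type} [Fintype ι] {F : Type} [Field F] [Fintype F]
variable {Y V : Type} [AddCommGroup Y] [Module F Y] [Fintype Y] [AddCommGroup V] [Module F V]
  [Fintype V]

/-- Probability that a linear map vanishes at a random vector. -/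
theorem prob_ker (L : Y →ₗ[F] V) :
    prob (fun x : Y => L x = 0) = (qq F)⁻¹ ^ Module.finrank F (LinearMap.range L) := by
  have hq := qq_pos F
  have h1 : Fintype.card {x : Y // L x = 0} = Fintype.card (LinearMap.ker L) :=
    Fintype.card_congr (Equiv.refl _)
  have h2 : Fintype.card (LinearMap.ker L) = Fintype.card F ^ Module.finrank F (LinearMap.ker L) :=
    Module.card_eq_pow_finrank
  have h3 : Fintype.card Y = Fintype.card F ^ Module.finrank F Y := Module.card_eq_pow_finrank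
  have h4 := LinearMap.finrank_range_add_finrank_ker L
  unfold prob
  have h5 : (Finset.univ.filter fun x : Y => L x = 0).card = Fintype.card {x : Y // L x = 0} := by
    rw [Fintype.card_subtype]
  rw [h5, h1, h2, h3, ← h4]
  push_cast
  rw [pow_add, inv_pow]
  field_simp

/-- The average over all points of a function of one coordinate. -/
theorem avg_coord (i : ι) (f : Y → ℝ) : avg (fun y : ι → Y => f (y i)) = avg f := by
  have e : ((j : ι) → Y) ≃ Y × ({j // j ≠ i} → Y) := Equiv.funSplitAt i Y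
  have h : avg (fun y : ι → Y => f (y i)) =
      avg (fun p : Y × ({j // j ≠ i} → Y) => f p.1) := by
    rw [← avg_equiv (Equiv.funSplitAt i Y) (fun p : Y × ({j // j ≠ i} → Y) => f p.1)]
    rfl
  rw [h, avg_prod]
  simp only [avg_const]

theorem prob_coord (i : ι) (p : Y → Prop) : prob (fun y : ι → Y => p (y i)) = prob p := by
  rw [prob_eq_avg, prob_eq_avg]
  exact avg_coord i (fun u => if p u then (1 : ℝ) else 0)

/-- The zero probability in one slot is `q^{-rank}`. -/
theorem ZA_erase {I : Finset ι} {T : (ι → Y) → V} (hT : MLin F I T) {i : ι} (hi : i ∈ I)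
    (y : ι → Y) :
    ZA (I.erase i) T y = (qq F)⁻¹ ^ Module.finrank F (LinearMap.range (slotMap hT hi y)) := by
  unfold ZA
  rw [← prob_ker (slotMap hT hi y)]
  refine Eq.trans ?_ (prob_coord i (fun x : Y => slotMap hT hi y x = 0))
  apply prob_congr
  intro z
  have : T ((I.erase i).piecewise y z) = slotMap hT hi y (z i) := by
    show T ((I.erase i).piecewise y z) = T (Function.update y i (z i))
    apply hT.congr
    intro k hk
    by_cases hki : k = i
    · subst hki; simp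
    · simp [Finset.piecewise, hki, hk]
  rw [this]

end

/-- Iterating Lemma H. -/
theorem iterH {ι : Type} [Fintype ι] (hH : StmtH ι) (F : Type) [Field F] [Fintype F]
    (hq : 2 + Fintype.card ι + 2 ^ (Fintype.card ι + 1) * Fintype.card ι ≤ Fintype.card F)
    (Y V : Type) [AddCommGroup Y] [Module F Y] [Fintype Y] [AddCommGroup V] [Module F V]
    [Fintype V] (I : Finset ι) (i0 : ι) (h0 : i0 ∈ I) (T : (ι → Y) → V) (hT : MLin F I T)
    (P : Fam ι F Y) (c : ℕ) (hP : P.On (I.erase i0))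
    (hr : ∀ y ∈ P.zer, Module.finrank F (LinearMap.range (slotMap hT h0 y)) ≤ c) (N : ℕ) :
    ∃ (P' : Fam ι F Y) (T' : (ι → Y) → V) (hT' : MLin F I T'), P'.On (I.erase i0) ∧
      P'.card ≤ (2 ^ Fintype.card ι) ^ N * P.card ∧
      PRle F I (T - T') (N * (2 ^ Fintype.card ι * c)) ∧
      ∀ y ∈ P'.zer, Module.finrank F (LinearMap.range (slotMap hT' h0 y)) ≤ c / 2 ^ N := by
  induction N with
  | zero =>
    refine ⟨P, T, hT, hP, by simp, ?_, by simpa using hr⟩
    rw [zero_mul]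
    exact (PRle.zero I).of_eq (by intro y; simp)
  | succ N ih =>
    obtain ⟨P1, T1, hT1, hP1, hc1, hp1, hr1⟩ := ih
    obtain ⟨P2, T2, hT2, hP2, hc2, hp2, hr2⟩ :=
      hH F hq Y V I i0 h0 T1 hT1 P1 (c / 2 ^ N) hP1 hr1
    refine ⟨P2, T2, hT2, hP2, ?_, ?_, ?_⟩
    · calc P2.card ≤ 2 ^ Fintype.card ι * P1.card := hc2
        _ ≤ 2 ^ Fintype.card ι * ((2 ^ Fintype.card ι) ^ N * P.card) := Nat.mul_le_mul_left _ hc1
        _ = (2 ^ Fintype.card ι) ^ (N + 1) * P.card := by ring
    · refine (PRle.trans hp1 hp2).mono ⟨i0, h0⟩ ?_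
      have : c / 2 ^ N ≤ c := Nat.div_le_self _ _
      calc N * (2 ^ Fintype.card ι * c) + 2 ^ Fintype.card ι * (c / 2 ^ N)
          ≤ N * (2 ^ Fintype.card ι * c) + 2 ^ Fintype.card ι * c := by gcongr
        _ = (N + 1) * (2 ^ Fintype.card ι * c) := by ring
    · intro y hy
      refine (hr2 y hy).trans (le_of_eq ?_)
      rw [Nat.div_div_eq_div_mul, pow_succ]

/-- The induction step of the Main Theorem. -/
theorem mainStep {ι : Type} [Fintype ι] (hH : StmtH ι) (hE : StmtEs ι)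
    (I : Finset ι) (i0 : ι) (h0 : i0 ∈ I) (C : ℕ) (hA : StmtA ι I i0 C) :
    ∃ C' : ℕ, ∀ (F : Type) [Field F] [Fintype F],
      2 + Fintype.card ι + 2 ^ (Fintype.card ι + 1) * Fintype.card ι ≤ Fintype.card F →
      (∀ J ⊂ I, DD F J C) → DD F I C' := by
  obtain ⟨C3, hC3⟩ := hE
  obtain ⟨C4, hC4⟩ := hA
  set n := Fintype.card ι with hn
  obtain ⟨N, hN⟩ : ∃ N : ℕ, 8 * C3 * C4 ≤ 2 ^ N :=
    ⟨8 * C3 * C4, (Nat.lt_two_pow_self).le⟩
  obtain ⟨K, hK⟩ := hC3 (I.erase i0) I (Finset.erase_subset _ _) C ((2 ^ n) ^ N * C4)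
    (8 * C3 * C3 + 1) (Nat.le_add_left _ _)
  set K1 : ℕ := N * (2 ^ n * C4) + K with hK1
  refine ⟨2 * K1, ?_⟩
  intro F _ _ hq hD Y V _ _ _ _ _ _ f hf a
  induction a using Nat.strong_induction_on generalizing f with
  | _ a ih =>
  intro ha
  have hsub : I.erase i0 ⊂ I := Finset.erase_ssubset h0
  obtain ⟨P0, hP0, hc0, hr0⟩ := hC4 F (hD _ hsub) Y V f hf h0 a ha
  obtain ⟨P1, T1, hT1, hP1, hc1, hp1, hr1⟩ :=
    iterH hH F hq Y V I i0 h0 f hf P0 (C4 * (a + 1)) hP0 hr0 N
  have hDD : ∀ J ⊆ I.erase i0, DD F J C := fun J hJ => hD J (lt_of_le_of_lt hJ hsub)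
  have hsm : Small (I.erase i0) (C4 * (a + 1) / 2 ^ N) P1 T1 := by
    intro y hy
    rw [ZA_erase hT1 h0 y]
    apply pow_le_pow_of_le_one
    · have := qq_pos F; positivity
    · exact inv_le_one_of_one_le₀ (by linarith [two_le_qq F])
    · exact hr1 y hy
  have hcard : P1.card ≤ ((2 ^ n) ^ N * C4) * (a + 1) := by
    calc P1.card ≤ (2 ^ n) ^ N * P0.card := hc1
      _ ≤ (2 ^ n) ^ N * (C4 * (a + 1)) := Nat.mul_le_mul_left _ hc0
      _ = ((2 ^ n) ^ N * C4) * (a + 1) := by ring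
  obtain ⟨T2, hT2, hp2, hz2⟩ := hK F hDD Y V (a + 1) (by omega) P1 T1 _ hP1 hcard hT1 hsm
  set cs : ℕ := C3 * (C4 * (a + 1) / 2 ^ N + C3 * (a + 1) / (8 * C3 * C3 + 1)) with hcs
  -- total cost
  have hcost : PRle F I (f - T2) (K1 * (a + 1)) := by
    refine (PRle.trans hp1 hp2).mono ⟨i0, h0⟩ (le_of_eq ?_)
    rw [hK1]; ring
  have h4 : 4 * cs ≤ a + 1 := by
    have h1 : 8 * C3 * (C4 * (a + 1) / 2 ^ N) ≤ a + 1 := by
      calc 8 * C3 * (C4 * (a + 1) / 2 ^ N) ≤ (8 * C3 * (C4 * (a + 1))) / 2 ^ N :=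
            Nat.mul_div_le_mul_div_assoc _ _ _
        _ = ((8 * C3 * C4) * (a + 1)) / 2 ^ N := by ring_nf
        _ ≤ (2 ^ N * (a + 1)) / 2 ^ N := Nat.div_le_div_right (Nat.mul_le_mul_right _ hN)
        _ = a + 1 := Nat.mul_div_cancel_left _ (by positivity)
    have h2 : 8 * C3 * (C3 * (a + 1) / (8 * C3 * C3 + 1)) ≤ a + 1 := by
      calc 8 * C3 * (C3 * (a + 1) / (8 * C3 * C3 + 1))
          ≤ (8 * C3 * (C3 * (a + 1))) / (8 * C3 * C3 + 1) := Nat.mul_div_le_mul_div_assoc _ _ _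
        _ ≤ ((8 * C3 * C3 + 1) * (a + 1)) / (8 * C3 * C3 + 1) := by
            apply Nat.div_le_div_right
            nlinarith
        _ = a + 1 := Nat.mul_div_cancel_left _ (by omega)
    have h3 : 8 * cs = 8 * C3 * (C4 * (a + 1) / 2 ^ N) +
        8 * C3 * (C3 * (a + 1) / (8 * C3 * C3 + 1)) := by rw [hcs]; ring
    omega
  have hfin : ∀ g : (ι → Y) → V, PRle F I g (K1 * (a + 1)) → PRle F I (f - T2) (K1 * (a + 1)) →
      (∀ y, T2 y = g y) → PRle F I f (2 * K1 * (a + 1)) := by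
    intro g hg hs he
    refine ((hs.add hg).of_eq ?_).mono ⟨i0, h0⟩ (le_of_eq (by ring))
    intro y
    simp [← he y]
  rcases Nat.eq_zero_or_pos cs with h0cs | hpos
  · rw [h0cs, pow_zero] at hz2
    have hzero : ∀ y, T2 y = 0 := fun y => forall_of_one_le_prob hz2 y
    exact ⟨_, le_rfl, hfin (fun _ => 0) ((PRle.zero I).mono ⟨i0, h0⟩ (Nat.zero_le _)) hcost hzero⟩
  · have hlt : cs < a := by omega
    obtain ⟨r5, hr5, h5⟩ := ih cs hlt T2 hT2 hz2
    have h6 : PRle F I T2 (K1 * (a + 1)) := by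
      refine h5.mono ⟨i0, h0⟩ (hr5.trans ?_)
      calc 2 * K1 * (cs + 1) = K1 * (2 * (cs + 1)) := by ring
        _ ≤ K1 * (a + 1) := Nat.mul_le_mul_left _ (by omega)
    exact ⟨_, le_rfl, hfin T2 h6 hcost (fun _ => rfl)⟩

/-- The Main Theorem from the section statements. -/
theorem main_of {ι : Type} [Fintype ι] (hH : StmtH ι) (hE : StmtEs ι)
    (hA : ∀ (I : Finset ι) (i0 : ι) (C : ℕ), StmtA ι I i0 C) : StmtMain ι := by
  refine ⟨2 + Fintype.card ι + 2 ^ (Fintype.card ι + 1) * Fintype.card ι, ?_⟩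
  have key : ∀ m : ℕ, ∃ C : ℕ, ∀ (F : Type) [Field F] [Fintype F],
      2 + Fintype.card ι + 2 ^ (Fintype.card ι + 1) * Fintype.card ι ≤ Fintype.card F →
      ∀ I : Finset ι, I.card ≤ m → DD F I C := by
    intro m
    induction m with
    | zero =>
      refine ⟨0, ?_⟩
      intro F _ _ _ I hI
      have : I = ∅ := Finset.card_eq_zero.1 (by omega)
      subst this
      exact DD_empty F 0
    | succ m ih =>
      obtain ⟨C, hC⟩ := ih
      have h1 : ∀ I : Finset ι, ∃ C' : ℕ, ∀ (F : Type) [Field F] [Fintype F],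
          2 + Fintype.card ι + 2 ^ (Fintype.card ι + 1) * Fintype.card ι ≤ Fintype.card F →
          I.card = m + 1 → DD F I C' := by
        intro I
        by_cases hI : I.card = m + 1
        · obtain ⟨i0, h0⟩ : I.Nonempty := Finset.card_pos.1 (by omega)
          obtain ⟨C', hC'⟩ := mainStep hH hE I i0 h0 C (hA I i0 C)
          refine ⟨C', fun F _ _ hq _ => hC' F hq fun J hJ => hC F hq J ?_⟩
          have := Finset.card_lt_card hJ
          omega
        · exact ⟨0, fun F _ _ _ h => absurd h hI⟩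
      choose C' hC' using h1
      refine ⟨C + ∑ I : Finset ι, C' I, ?_⟩
      intro F _ _ hq I hI
      rcases Nat.lt_or_ge I.card (m + 1) with hlt | hge
      · exact (hC F hq I (by omega)).mono (Nat.le_add_right _ _)
      · have hcard : I.card = m + 1 := by omega
        refine (hC' I F hq hcard).mono ?_
        calc C' I ≤ ∑ I : Finset ι, C' I :=
              Finset.single_le_sum (fun _ _ => Nat.zero_le _) (Finset.mem_univ I)
          _ ≤ _ := Nat.le_add_left _ _
  obtain ⟨C, hC⟩ := key (Fintype.card ι)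
  exact ⟨C, fun F _ _ hq I => hC F hq I (Finset.card_le_univ I)⟩

end PRAR
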