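import Pool.Agent.PRAR.Defs

/-!
# Section statements (propositions), see `h99_prar.md`

Each section statement is a `def … : Prop`, so that the sections can be developed independently and
the final assembly can take them as hypotheses.
-/

set_option autoImplicit false

open scoped Classical

noncomputable section

namespace PRAR

/-- Theorem S (section 2). -/
def StmtS (ι : Type) [Fintype ι] (I : Finset ι) : Prop :=
  ∃ C : ℕ, ∀ (F : Type) [Field F] [Fintype F] (Y V : Type) [AddCommGroup Y] [Module F Y]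
    [Fintype Y] [AddCommGroup V] [Module F V] [Fintype V] (f : (ι → Y) → V), MLin F I f →
    ∀ a κ : ℝ, 0 ≤ κ → prob (fun y : ι → Y => f y = 0) = (qq F) ^ (-a) →
    ZU f 3 ≤ (qq F) ^ (-((3 : ℝ) ^ I.card * a) + κ) →
    ∃ E : Submodule F V, (Module.finrank F E : ℝ) ≤ a + C * (κ + 1) ∧
      (qq F) ^ (-((C : ℝ) * (κ + 1))) ≤ prob (fun y : ι → Y => f y ∈ E)

/-- Lemma Dec (section 3), given `D(I)` with constant `CI`. -/
def StmtDec (ι : Type) [Fintype ι] (I : Finset ι) (CI : ℕ) : Prop :=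
  ∀ M ρ E0 : ℕ, 1 ≤ M → 1 ≤ E0 → ∃ K : ℕ, ∀ (F : Type) [Field F] [Fintype F], DD F I CI →
    ∀ (Y : Type) [AddCommGroup Y] [Module F Y] [Fintype Y] (σ : Type) [Fintype σ]
    (f : (ι → Y) → (σ → F)), MLin F I f → ∀ ss : ℕ, 1 ≤ ss → Fintype.card σ ≤ ρ * ss →
    ¬ Reg F I f (Fintype.card σ) ((ss : ℝ) / E0) M →
    ∃ E : Submodule F (σ → F),
      (Module.finrank F E : ℝ) ≤ (Fintype.card σ : ℝ) - ((ss : ℝ) / E0) / 2 ∧
      ∃ P : Fam ι F Y, (∀ k, P.ty k ⊂ I) ∧ P.card ≤ K * ss ∧ ∀ y ∈ P.zer, f y ∈ E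

/-- Lemma Reg (section 4). -/
def StmtReg (ι : Type) [Fintype ι] (A : Finset ι) (C : ℕ) : Prop :=
  ∀ (ρ E0 : ℕ) (G : ℕ → ℕ), 1 ≤ E0 → (∀ n, 1 ≤ G n) → ∃ K : ℕ,
    ∀ (F : Type) [Field F] [Fintype F], (∀ I ⊆ A, DD F I C) →
    ∀ (Y : Type) [AddCommGroup Y] [Module F Y] [Fintype Y] (ss : ℕ), 1 ≤ ss →
    ∀ P : Fam ι F Y, P.On A → P.card ≤ ρ * ss →
    ∃ (P' : Fam ι F Y) (K' : ℕ), P'.On A ∧ K' ≤ K ∧ P'.zer ⊆ P.zer ∧ P'.card ≤ K' * ss ∧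
      ∀ I, Reg F I (P'.vec I) (P'.cnt I) ((ss : ℝ) / E0) (G K')

/-- Lemma R (section 5). -/
def StmtR (ι : Type) [Fintype ι] : Prop :=
  ∃ C1 : ℕ, ∀ K E0 C : ℕ, 1 ≤ E0 → ∃ M : ℕ, 1 ≤ M ∧ ∀ (F : Type) [Field F] [Fintype F]
    (Y : Type) [AddCommGroup Y] [Module F Y] [Fintype Y] (ss : ℕ), 1 ≤ ss →
    ∀ (P : Fam ι F Y) (j : ι), P.card ≤ K * ss →
    (∀ I, j ∈ I → Reg F I (P.vec I) (P.cnt I) ((ss : ℝ) / E0) M) →
    prob (fun yb : (ι → Y) × (ι → Y) => (C1 : ℝ) * ((ss : ℝ) / E0) < dep P j yb.1 yb.2) ≤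
      (qq F)⁻¹ ^ (C * ss)

/-- Lemma E (section 6). -/
def StmtE (ι : Type) [Fintype ι] : Prop :=
  ∃ C2 : ℕ, ∀ (A IT : Finset ι) (j : ι), j ∈ A → A ⊆ IT → ∀ C ρ E0 : ℕ, 1 ≤ E0 → ∃ K : ℕ,
    ∀ (F : Type) [Field F] [Fintype F], (∀ I ⊆ A, DD F I C) →
    ∀ (Y V : Type) [AddCommGroup Y] [Module F Y] [Fintype Y] [AddCommGroup V] [Module F V]
    [Fintype V] (ss : ℕ), 1 ≤ ss → ∀ (P : Fam ι F Y) (T : (ι → Y) → V) (c : ℕ), P.On A →
    P.card ≤ ρ * ss → MLin F IT T → Small A c P T →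
    ∃ (P' : Fam ι F Y) (T' : (ι → Y) → V), P'.On (A.erase j) ∧ P'.card ≤ K * ss ∧
      MLin F IT T' ∧ PRle F IT (T - T') (K * ss) ∧
      Small (A.erase j) (C2 * (c + C2 * ss / E0)) P' T'

/-- Corollary E* (end of section 6). -/
def StmtEs (ι : Type) [Fintype ι] : Prop :=
  ∃ C3 : ℕ, ∀ (A IT : Finset ι), A ⊆ IT → ∀ C ρ E0 : ℕ, 1 ≤ E0 → ∃ K : ℕ,
    ∀ (F : Type) [Field F] [Fintype F], (∀ I ⊆ A, DD F I C) →
    ∀ (Y V : Type) [AddCommGroup Y] [Module F Y] [Fintype Y] [AddCommGroup V] [Module F V]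
    [Fintype V] (ss : ℕ), 1 ≤ ss → ∀ (P : Fam ι F Y) (T : (ι → Y) → V) (c : ℕ), P.On A →
    P.card ≤ ρ * ss → MLin F IT T → Small A c P T →
    ∃ T' : (ι → Y) → V, MLin F IT T' ∧ PRle F IT (T - T') (K * ss) ∧
      (qq F)⁻¹ ^ (C3 * (c + C3 * ss / E0)) ≤ prob (fun y : ι → Y => T' y = 0)

/-- Lemma A (section 7). -/
def StmtA (ι : Type) [Fintype ι] (I : Finset ι) (i0 : ι) (C : ℕ) : Prop :=
  ∃ C4 : ℕ, ∀ (F : Type) [Field F] [Fintype F], DD F (I.erase i0) C →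
    ∀ (Y V : Type) [AddCommGroup Y] [Module F Y] [Fintype Y] [AddCommGroup V] [Module F V]
    [Fintype V] (T : (ι → Y) → V) (hT : MLin F I T) (h0 : i0 ∈ I) (a : ℕ),
    (qq F)⁻¹ ^ a ≤ prob (fun y : ι → Y => T y = 0) →
    ∃ P : Fam ι F Y, P.On (I.erase i0) ∧ P.card ≤ C4 * (a + 1) ∧
      ∀ y ∈ P.zer, Module.finrank F (LinearMap.range (slotMap hT h0 y)) ≤ C4 * (a + 1)

/-- Lemma H (section 8). -/
def StmtH (ι : Type) [Fintype ι] : Prop :=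
  ∀ (F : Type) [Field F] [Fintype F],
    2 + Fintype.card ι + 2 ^ (Fintype.card ι + 1) * Fintype.card ι ≤ Fintype.card F →
    ∀ (Y V : Type) [AddCommGroup Y] [Module F Y] [Fintype Y] [AddCommGroup V] [Module F V]
    [Fintype V] (I : Finset ι) (i0 : ι) (h0 : i0 ∈ I) (T : (ι → Y) → V) (hT : MLin F I T)
    (P : Fam ι F Y) (c : ℕ), P.On (I.erase i0) →
    (∀ y ∈ P.zer, Module.finrank F (LinearMap.range (slotMap hT h0 y)) ≤ c) →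
    ∃ (P' : Fam ι F Y) (T' : (ι → Y) → V) (hT' : MLin F I T'), P'.On (I.erase i0) ∧
      P'.card ≤ 2 ^ Fintype.card ι * P.card ∧ PRle F I (T - T') (2 ^ Fintype.card ι * c) ∧
      ∀ y ∈ P'.zer, Module.finrank F (LinearMap.range (slotMap hT' h0 y)) ≤ c / 2

/-- The Main Theorem for slots in `ι`. -/
def StmtMain (ι : Type) [Fintype ι] : Prop :=
  ∃ Q0 C : ℕ, ∀ (F : Type) [Field F] [Fintype F], Q0 ≤ Fintype.card F → ∀ I : Finset ι, DD F I C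

end PRAR
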